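import Pool.Agent.Lib.TG42A.Defs
import Pool.Agent.Lib.TG_h33.W2

/-!
# C42, assembly of PROJ, row WRG: the chain rule (helper4)
-/

set_option autoImplicit false

namespace Pool.Agent.TG42A

open MvPolynomial
open Pool.Agent.TGh33 (Wr jm)
open Pool.Agent.TG42 (wr)

universe u

variable {k K : Type u} [Field k] [Field K] [Algebra k K] {n : ℕ}
  {D : Fin (n + 1) → Derivation k K K} {δ : ℕ} {X : Fin (n + 2) → K}
  {g : Fin (n + 2) → MvPolynomial (Fin (n + 2)) k}

theorem aeval_gi (hX : ∀ i, X i ≠ 0) (hg : ∀ j, (g j).IsHomogeneous δ) (i j : Fin (n + 2)) :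
    aeval X (g j) = X i ^ δ * aeval (cr X i) (gi g i j) := by
  have h1 : aeval (cr X i) (gi g i j) = aeval (fun l => X l / X i) (g j) := by
    rw [gi, dh, comp_aeval_apply]
    congr 2
    funext l
    refine Fin.succAboveCases i ?_ (fun l => ?_) l
    · rw [Fin.insertNth_apply_same, map_one, div_self (hX i)]
    · rw [Fin.insertNth_apply_succAbove, aeval_X]
      rfl
  rw [h1, aeval_def, eval₂_eq, aeval_def, eval₂_eq, Finset.mul_sum]
  refine Finset.sum_congr rfl fun s hs => ?_
  have h1 : s.degree = δ := by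
    rw [Finsupp.degree_eq_weight_one]
    exact hg j (mem_support_iff.1 hs)
  have h2 : ∏ l ∈ s.support, X l ^ s l = X i ^ δ * ∏ l ∈ s.support, (X l / X i) ^ s l := by
    rw [← h1, Finsupp.degree_apply, ← Finset.prod_pow_eq_pow_sum, ← Finset.prod_mul_distrib]
    refine Finset.prod_congr rfl fun l _ => ?_
    rw [← mul_pow, mul_div_cancel₀ _ (hX i)]
  rw [h2]
  ring

/-- The chain rule. -/
theorem deriv_aeval {m : ℕ} (d : Derivation k K K) (c : Fin m → K) (q : MvPolynomial (Fin m) k) :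
    d (aeval c q) = ∑ l, aeval c (pderiv l q) * d (c l) := by
  induction q using MvPolynomial.induction_on with
  | C a =>
    rw [aeval_C, d.map_algebraMap, Finset.sum_eq_zero]
    intro l _
    rw [pderiv_C, map_zero, zero_mul]
  | add p q hp hq =>
    rw [map_add, map_add, hp, hq, ← Finset.sum_add_distrib]
    refine Finset.sum_congr rfl fun l _ => ?_
    rw [map_add, map_add, add_mul]
  | mul_X p j hp =>
    rw [map_mul, aeval_X, d.leibniz, smul_eq_mul, smul_eq_mul, hp]
    have h1 : ∀ l, aeval c (pderiv l (p * X j)) * d (c l) =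
        (if l = j then aeval c p * d (c j) else 0) + c j * (aeval c (pderiv l p) * d (c l)) := by
      intro l
      rw [Derivation.leibniz, smul_eq_mul, smul_eq_mul, map_add, map_mul, map_mul, aeval_X,
        pderiv_X]
      by_cases h : l = j
      · subst h
        rw [if_pos rfl, Pi.single_eq_same, map_one]
        ring
      · rw [if_neg h, Pi.single_eq_of_ne (Ne.symm h), map_zero]
        ring
    rw [Finset.sum_congr rfl fun l _ => h1 l, Finset.sum_add_distrib, Finset.sum_ite_eq',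
      if_pos (Finset.mem_univ j), Finset.mul_sum]

/-- The Wronskian of polynomials in `c`. -/
theorem Wr_aeval (c : Fin (n + 1) → K) (q : Fin (n + 2) → MvPolynomial (Fin (n + 1)) k) :
    Wr D (fun j => aeval c (q j)) = aeval c (wr q) * (jm D c).det := by
  obtain ⟨T, hT⟩ : ∃ T : Matrix (Fin (n + 2)) (Fin (n + 2)) K, T = Matrix.of
      (Fin.cons (Fin.cons 1 0) fun m => Fin.cons 0 fun i => jm D c m i) := ⟨_, rfl⟩
  have hdet : T.det = (jm D c).det := by
    rw [hT, Matrix.det_succ_row_zero, Fin.sum_univ_succ, Finset.sum_eq_zero]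
    · simp only [Matrix.of_apply, Fin.cons_zero, Fin.val_zero, pow_zero, one_mul, add_zero]
      congr 1
    · intro i _
      simp
  rw [← hdet, TGh33.Wr_def, wr, AlgHom.map_det, ← Matrix.det_mul]
  congr 1
  ext j l
  rw [Matrix.mul_apply, Fin.sum_univ_succ, hT]
  refine Fin.cases ?_ (fun l => ?_) l
  · simp
  · simp only [Matrix.of_apply, TGh33.row_succ, Fin.cons_zero, Fin.cons_succ,
      Pi.zero_apply, mul_zero, zero_add, AlgHom.mapMatrix_apply, Matrix.map_apply]
    exact deriv_aeval (D l) c (q j)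

/-- `± W(g(X)) = X_i ^ (δ (n + 2)) * W(g)(cr X i) * W(X) / X_i ^ (n + 2)`. -/
theorem wr_aeval (hX : ∀ i, X i ≠ 0) (hg : ∀ j, (g j).IsHomogeneous δ) (i : Fin (n + 2)) :
    ∃ ε : K, (ε = 1 ∨ ε = -1) ∧ Wr D (fun j => aeval X (g j)) =
      ε * (X i ^ (δ * (n + 2)) * aeval (cr X i) (wr (gi g i)) * (Wr D X / X i ^ (n + 2))) := by
  have h1 : (fun j => aeval X (g j)) = fun j => X i ^ δ * aeval (cr X i) (gi g i j) := by
    funext j
    exact aeval_gi hX hg i j
  have h2 : (X ∘ i.cycleRange.symm : Fin (n + 2) → K) = Fin.cons (X i) fun j => X (i.succAbove j) := by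
    funext j
    refine Fin.cases ?_ (fun j => ?_) j
    · rw [Function.comp_apply, Fin.cycleRange_symm_zero, Fin.cons_zero]
    · rw [Function.comp_apply, Fin.cycleRange_symm_succ, Fin.cons_succ]
  have h3 := TGh33.Wr_comp_perm D X i.cycleRange.symm
  rw [h2, TGh33.Wr_eq_jm D _ (by rw [Fin.cons_zero]; exact hX i)] at h3
  simp only [Fin.cons_zero, Fin.cons_succ] at h3
  have h4 : X i ^ (n + 2) ≠ 0 := pow_ne_zero _ (hX i)
  obtain ⟨ε, hε⟩ : ∃ ε : K, ε = (((Equiv.Perm.sign i.cycleRange.symm : ℤˣ) : ℤ) : K) := ⟨_, rfl⟩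
  have hε1 : ε = 1 ∨ ε = -1 := by
    rw [hε]
    rcases Int.units_eq_one_or (Equiv.Perm.sign i.cycleRange.symm) with h | h
    · left
      rw [h]
      simp
    · right
      rw [h]
      simp
  rw [← hε] at h3
  refine ⟨ε, hε1, ?_⟩
  have h5 : (jm D (cr X i)).det = ε * (Wr D X / X i ^ (n + 2)) := by
    rw [← mul_div_assoc, ← h3, mul_div_cancel_left₀ _ h4]
    rfl
  rw [h1, TGh33.Wr_mul, Wr_aeval, h5, ← pow_mul]
  ring

end Pool.Agent.TG42A
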