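import Pool.Agent.Lib.TG42A.Sep0
import Pool.Agent.Lib.TG42A.Wrg

/-!
# C42, assembly of PROJ, row SEP (helper45)
-/

set_option autoImplicit false

namespace Pool.Agent.TG42A

open MvPolynomial
open Pool.Agent.TG (Ov ZDim IsMin LB KB PB PP spn PDiv RV LDeg)
open Pool.Agent.TGh33 (Wr)
open Pool.Agent.TG1 (OverP Dat)
open Pool.Agent.TG42 (wr)

universe u

variable {k K : Type u} [Field k] [Field K] [Algebra k K] {n : ℕ}
  {D : Fin (n + 1) → Derivation k K K} {z : Fin (n + 1) → K} {A : Subalgebra k K} {C T δ : ℕ}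
  {X : Fin (n + 2) → K} {F : Fin (n + 2) → MvPolynomial (Fin (n + 1)) k}
  {g : Fin (n + 2) → MvPolynomial (Fin (n + 2)) k}

/-- **ROW SEP.** -/
theorem proj_sep [IsAlgClosed k] (dat : Dat D z A) (hc : Charts D A C X F) (hj : Jets T δ F g) :
    AlgebraicIndependent k (cr X 0) ∧ (∀ j, aeval X (g j) ≠ 0) ∧
    AlgebraicIndependent k (bb X g) ∧ Transcendental (LB k (bb X g)) (zz X g) ∧
    FiniteDimensional (KB k (bb X g) (zz X g)) K ∧
    Algebra.IsSeparable (KB k (bb X g) (zz X g)) K :=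
  proj_sep_of_wr dat hc.wr (wr_g_ne dat hc.wr hj.wr_ne
    (wr_aeval (X_ne_zero_of_wr hc.wr) hj.hom))

end Pool.Agent.TG42A
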