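import Pool.Agent.Lib.TG42A.AsmC0
import Pool.Agent.Lib.TG42A.Sep

/-!
# C42, assembly of PROJ, row ASM-c
-/

set_option autoImplicit false

namespace Pool.Agent.TG42A

open MvPolynomial
open Pool.Agent.TG (Ov ZDim IsMin LB KB PB PP spn PDiv RV LDeg)
open Pool.Agent.TGh33 (Wr)
open Pool.Agent.TG1 (OverP Dat)
open Pool.Agent.TG42 (mI hh wr OrdLe)

universe u

variable {k K : Type u} [Field k] [Field K] [Algebra k K] {n : ℕ}
  {D : Fin (n + 1) → Derivation k K K} {z : Fin (n + 1) → K} {A : Subalgebra k K} {C T δ : ℕ}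
  {X : Fin (n + 2) → K} {F : Fin (n + 2) → MvPolynomial (Fin (n + 1)) k}
  {g : Fin (n + 2) → MvPolynomial (Fin (n + 2)) k}

theorem bad_concl [IsAlgClosed k] (p : ℕ) [Fact p.Prime] [CharP k p] (hT : T ^ (n + 1) < p)
    (dat : Dat D z A) (hc : Charts D A C X F) (hj : Jets T δ F g) {v : ValuationSubring K}
    (_ : PDiv k (bb X g) (zz X g) v) (hL : ∀ x ∈ LB k (bb X g), x ∈ v)
    (hbad : ∀ i, (∀ j, X j / X i ∈ v) →
      v.valuation (aeval (cr X i) (F i * wr (gi g i))) < 1) :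
    BadConcl k (bb X g) (zz X g) (T ^ (n + 1)) v :=
  bad_concl_of_sep p hT hc hj (proj_sep dat hc hj) hL hbad

end Pool.Agent.TG42A
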