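import Pool.Agent.Lib.TG42A.Defs
import Pool.Agent.Lib.TG_h24.ResRow

/-!
# C42, assembly of PROJ, row ASM-c: the residue fields of the bad divisors
-/

set_option autoImplicit false

namespace Pool.Agent.TG42A

open MvPolynomial
open Pool.Agent.TG (Ov ZDim IsMin LB KB PB PP spn PDiv RV LDeg)
open Pool.Agent.TGh33 (Wr)
open Pool.Agent.TG1 (OverP Dat)
open Pool.Agent.TG42 (mI hh wr OrdLe)

universe u

variable {k K : Type u} [Field k] [Field K] [Algebra k K] {n : ℕ}
  {D : Fin (n + 1) → Derivation k K K} {A : Subalgebra k K} {C T δ : ℕ}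
  {X : Fin (n + 2) → K} {F : Fin (n + 2) → MvPolynomial (Fin (n + 1)) k}
  {g : Fin (n + 2) → MvPolynomial (Fin (n + 2)) k}

theorem insertNth_cr (X : Fin (n + 2) → K) (i : Fin (n + 2)) (hi : X i ≠ 0) (j : Fin (n + 2)) :
    aeval (cr X i) (i.insertNth (α := fun _ => MvPolynomial (Fin (n + 1)) k) 1
      (fun j => MvPolynomial.X j) j) = X j / X i := by
  induction j using Fin.succAboveCases i with
  | x => rw [Fin.insertNth_apply_same, map_one, div_self hi]
  | p j =>
    rw [Fin.insertNth_apply_succAbove, aeval_X]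
    rfl

theorem aeval_dh (X : Fin (n + 2) → K) (i : Fin (n + 2)) (hi : X i ≠ 0)
    (q : MvPolynomial (Fin (n + 2)) k) :
    aeval (cr X i) (dh i q) = aeval (fun j => X j / X i) q := by
  rw [dh, comp_aeval_apply]
  congr 2
  funext j
  exact insertNth_cr X i hi j

theorem aeval_hom (X : Fin (n + 2) → K) {q : MvPolynomial (Fin (n + 2)) k}
    (hq : q.IsHomogeneous δ) {c : K} (hc : c ≠ 0) :
    aeval X q = c ^ δ * aeval (fun j => X j / c) q := by
  rw [aeval_def, eval₂_eq, aeval_def, eval₂_eq, Finset.mul_sum]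
  refine Finset.sum_congr rfl fun s hs => ?_
  have h1 : s.degree = δ := by
    rw [Finsupp.degree_eq_weight_one]
    exact hq (mem_support_iff.1 hs)
  have h2 : ∏ i ∈ s.support, X i ^ s i = c ^ δ * ∏ i ∈ s.support, (X i / c) ^ s i := by
    rw [← h1, Finsupp.degree_apply, ← Finset.prod_pow_eq_pow_sum, ← Finset.prod_mul_distrib]
    refine Finset.prod_congr rfl fun i _ => ?_
    rw [← mul_pow, mul_div_cancel₀ _ hc]
  rw [h2]
  ring

theorem totalDegree_dh_le (i : Fin (n + 2)) (q : MvPolynomial (Fin (n + 2)) k) :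
    (dh i q).totalDegree ≤ q.totalDegree := by
  rw [dh, aeval_def, eval₂_eq]
  refine (totalDegree_finset_sum _ _).trans (Finset.sup_le fun s hs => ?_)
  refine (totalDegree_mul _ _).trans ?_
  rw [algebraMap_eq, totalDegree_C, zero_add]
  refine (totalDegree_finset_prod _ _).trans ?_
  refine le_trans ?_ (le_totalDegree hs)
  rw [Finsupp.sum]
  refine Finset.sum_le_sum fun j _ => ?_
  refine (totalDegree_pow _ _).trans ?_
  refine (Nat.mul_le_mul_left _ (?_ : _ ≤ 1)).trans (le_of_eq (mul_one _))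
  induction j using Fin.succAboveCases i with
  | x =>
    rw [Fin.insertNth_apply_same, totalDegree_one]
    exact zero_le_one
  | p j =>
    rw [Fin.insertNth_apply_succAbove]
    exact (totalDegree_X _).le

/-- Row ASM-c, over the rows SEP and WRG. -/
theorem bad_concl_of [IsAlgClosed k] (p : ℕ) [Fact p.Prime] [CharP k p] (hT : T ^ (n + 1) < p)
    (hc : Charts D A C X F) (hj : Jets T δ F g) (hX : ∀ i, X i ≠ 0)
    (hg0 : aeval X (g 0) ≠ 0) (hind : AlgebraicIndependent k (bb X g))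
    {v : ValuationSubring K} (hL : ∀ x ∈ LB k (bb X g), x ∈ v)
    (hbad : ∀ i, (∀ j, X j / X i ∈ v) →
      v.valuation (aeval (cr X i) (F i * wr (gi g i))) < 1) :
    BadConcl k (bb X g) (zz X g) (T ^ (n + 1)) v := by
  obtain ⟨t, rfl⟩ : ∃ t, δ = t + 1 := ⟨δ - 1, (Nat.sub_add_cancel hj.pos).symm⟩
  refine TG24.exists_bad (x := X) (Γ := fun j => aeval X (g j)) (i₀ := 0) (l := Fin.last (n + 1))
    (t := t) rfl hind (Fin.last_pos.ne) (fun i => ⟨i.castSucc.succ, ?_, ?_⟩) (fun j hjl hj0 => ?_)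
    ?_ ⟨0, hX 0⟩ hL (fun i _ hi => ⟨gi g i, F i * wr (gi g i), ?_, ?_, ?_, hbad i hi, ?_, ?_⟩) p hT
  · intro h
    rw [← Fin.succ_last] at h
    exact (Fin.castSucc_lt_last i).ne (Fin.succ_injective _ h)
  · exact div_mul_cancel₀ _ hg0
  · obtain ⟨j, rfl⟩ := Fin.exists_succ_eq.2 hj0
    have h1 : j ≠ Fin.last n := by
      rintro rfl
      exact hjl (Fin.succ_last _)
    obtain ⟨i, rfl⟩ := Fin.exists_castSucc_eq.2 h1
    exact ⟨i, div_mul_cancel₀ _ hg0⟩
  · exact div_mul_cancel₀ _ hg0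
  · intro j
    exact (totalDegree_dh_le i (g j)).trans (hj.hom j).totalDegree_le
  · intro j
    rw [eq_div_iff (pow_ne_zero _ (hX i))]
    change aeval (cr X i) (dh i (g j)) * _ = aeval X (g j)
    rw [aeval_dh X i (hX i), aeval_hom X (hj.hom j) (hX i), mul_comm]
  · exact mul_ne_zero (hc.ne i) (hj.wr_ne i)
  · intro η hη
    by_contra hcon
    push Not at hcon
    obtain ⟨h1, h2⟩ := hj.cen i η (Fin.last (n + 1)) hcon
    rw [map_mul] at hη
    exact mul_ne_zero h1 h2 hη
  · intro η i₀ h0 h1 _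
    exact hj.two i η i₀ _ h0 h1

theorem X_ne_of_ind (h : AlgebraicIndependent k (cr X 0)) (i : Fin (n + 2)) : X i ≠ 0 := by
  have h1 : ∀ j : Fin (n + 1), X j.succ / X 0 ≠ 0 := fun j => h.ne_zero j
  rcases eq_or_ne i 0 with rfl | hi
  · exact fun h2 => h1 0 (by rw [h2, div_zero])
  · obtain ⟨j, rfl⟩ := Fin.exists_succ_eq.2 hi
    exact fun h2 => h1 j (by rw [h2, zero_div])

/-- Row ASM-c, `hs` is the conclusion of `proj_sep`. -/
theorem bad_concl_of_sep [IsAlgClosed k] (p : ℕ) [Fact p.Prime] [CharP k p]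
    (hT : T ^ (n + 1) < p) (hc : Charts D A C X F) (hj : Jets T δ F g)
    (hs : AlgebraicIndependent k (cr X 0) ∧ (∀ j, aeval X (g j) ≠ 0) ∧
      AlgebraicIndependent k (bb X g) ∧ Transcendental (LB k (bb X g)) (zz X g) ∧
      FiniteDimensional (KB k (bb X g) (zz X g)) K ∧
      Algebra.IsSeparable (KB k (bb X g) (zz X g)) K)
    {v : ValuationSubring K} (hL : ∀ x ∈ LB k (bb X g), x ∈ v)
    (hbad : ∀ i, (∀ j, X j / X i ∈ v) →
      v.valuation (aeval (cr X i) (F i * wr (gi g i))) < 1) :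
    BadConcl k (bb X g) (zz X g) (T ^ (n + 1)) v :=
  bad_concl_of p hT hc hj (X_ne_of_ind hs.1) (hs.2.1 0) hs.2.2.1 hL hbad

end Pool.Agent.TG42A
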