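import Pool.Agent.Lib.TG42A.Defs1
import Pool.Agent.Lib.TG91.Final
import Pool.Agent.Lib.TG_h77.H1All
import Pool.Agent.Lib.TG_h13.MainC1
import Pool.Agent.Lib.TG_h13.BaseC1
import Pool.Agent.Lib.TG_h13.GenC

/-!
# C42, assembly of PROJ, row CH1: the hyperplane charts of the first projection
-/

set_option autoImplicit false

open scoped Classical

namespace Pool.Agent.TG42A

open MvPolynomial
open Pool.Agent.TG (Ov ZDim IsMin spn RV LDeg)
open Pool.Agent.TGh33 (Wr)
open Pool.Agent.TG1 (OverP Dat Adm Bpf crd kq dg tl ordAt Wr_tl)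
open Pool.Agent.TG91 (Reached cx ct ca cx_ca ct_ca)
open Pool.Agent.TG42 (OrdLe)
open Pool.Agent.TG77 (Pm)
open Pool.Agent.TGJ (frk frk_le_card frk_le_of_algebraic algebraicIndependent_iff_frk)

universe u

/-- The coefficients of the changed tuple are algebraically independent. -/
theorem algInd_ca {F k : Type u} [Field F] [Field k] [Algebra F k] {n h : ℕ}
    {c : Fin (n + 2) × Fin h → k} (hc : AlgebraicIndependent F c) {a : Fin (n + 1) → k}
    (ha : ∀ i, a i ∈ Set.range (algebraMap F k)) : AlgebraicIndependent F (ca c a) := by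
  rw [algebraicIndependent_iff_frk] at hc ⊢
  apply le_antisymm
  · refine (frk_le_card F _).trans (Finset.card_image_le.trans ?_)
    rw [Finset.card_univ]
  · rw [← hc]
    apply frk_le_of_algebraic
    intro x hx
    apply TGh13c.isAlgebraic_of_mem
    have hmem : ∀ q, ca c a q ∈ IntermediateField.adjoin F
        ((Finset.univ.image (ca c a) : Finset k) : Set k) := fun q =>
      IntermediateField.subset_adjoin _ _
        (Finset.mem_coe.2 (Finset.mem_image.2 ⟨q, Finset.mem_univ _, rfl⟩))
    have hsucc : ∀ (i : Fin (n + 1)) (j : Fin h), ca c a (i.succ, j) = c (i.succ, j) := by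
      intro i j
      simp only [ca]
      rw [if_neg (Fin.succ_ne_zero i)]
    obtain ⟨⟨i, j⟩, -, rfl⟩ := Finset.mem_image.1 hx
    refine Fin.cases ?_ (fun i => ?_) i
    · have h1 : c (0, j) = ca c a (0, j) - ∑ i : Fin (n + 1), a i * ca c a (i.succ, j) := by
        simp only [hsucc]
        simp only [ca, if_true]
        ring
      rw [h1]
      refine sub_mem (hmem _) (sum_mem fun i _ => mul_mem ?_ (hmem _))
      obtain ⟨b, hb⟩ := ha i
      rw [← hb]
      exact IntermediateField.algebraMap_mem _ _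
    · rw [← hsucc]
      exact hmem _

theorem ordLe_of_ordAt {k : Type u} [Field k] {n : ℕ} {η : Fin (n + 1) → k}
    {F : MvPolynomial (Fin (n + 1)) k} (hF : F ≠ 0) {b : ℕ} (h : ordAt η F ≤ b) :
    OrdLe η F b := by
  have hne : {m | homogeneousComponent m
      (aeval (fun i => X i + C (η i)) F : MvPolynomial (Fin (n + 1)) k) ≠ 0}.Nonempty := by
    by_contra hcon
    rw [Set.not_nonempty_iff_eq_empty] at hcon
    have h1 : ∀ m, homogeneousComponent m
        (aeval (fun i => X i + C (η i)) F : MvPolynomial (Fin (n + 1)) k) = 0 := by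
      intro m
      by_contra h2
      have h3 : m ∈ {m | homogeneousComponent m
        (aeval (fun i => X i + C (η i)) F : MvPolynomial (Fin (n + 1)) k) ≠ 0} := h2
      rw [hcon] at h3
      exact h3
    have h2 : (aeval (fun i => X i + C (η i)) F : MvPolynomial (Fin (n + 1)) k) = 0 := by
      rw [← sum_homogeneousComponent (aeval (fun i => X i + C (η i)) F :
        MvPolynomial (Fin (n + 1)) k)]
      exact Finset.sum_eq_zero fun m _ => h1 m
    apply hF
    have h3 : (aeval (fun i => X i - C (η i)) : MvPolynomial (Fin (n + 1)) k →ₐ[k] _)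
        (aeval (fun i => X i + C (η i)) F : MvPolynomial (Fin (n + 1)) k) = F := by
      have h4 : ((aeval (fun i => X i - C (η i)) :
          MvPolynomial (Fin (n + 1)) k →ₐ[k] MvPolynomial (Fin (n + 1)) k).comp
          (aeval (fun i => X i + C (η i)))) = AlgHom.id k _ := by
        refine MvPolynomial.algHom_ext fun i => ?_
        rw [AlgHom.comp_apply, aeval_X, map_add, aeval_X, algHom_C, algebraMap_eq,
          AlgHom.id_apply, sub_add_cancel]
      exact congrArg (fun f => f F) h4
    rw [← h3, h2, map_zero]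
  have h1 := Nat.sInf_mem hne
  exact ⟨ordAt η F, h, h1⟩

theorem Pm_eq_spn {k K : Type u} [Field k] [Field K] [Algebra k K] {n : ℕ}
    {E : IntermediateField k K} (l : Fin (n + 1) → K) (y : Fin (n + 1) → E)
    (hy : ∀ i, (y i : K) = l i) : Pm k y = spn E (insert 1 (Set.range l)) := by
  have h1 : Submodule.span k (insert 1 (Set.range l)) =
      (Submodule.span k (insert 1 (Set.range y))).map E.val.toLinearMap := by
    rw [Submodule.map_span]
    congr 1
    rw [Set.image_insert_eq, ← Set.range_comp]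
    congr 1
    · congr 1
      funext i
      exact (hy i).symm
  rw [spn, h1, Submodule.comap_map_eq_of_injective]
  · rfl
  · exact Subtype.val_injective

/-- **Row CH1.** -/
theorem exists_ch1 (n : ℕ) : ∃ C : ℕ, ∀ (k K : Type u) [Field k] [Field K] [Algebra k K]
    [IsAlgClosed k] [Uncountable k] (p : ℕ) [Fact p.Prime] [CharP k p]
    (D : Fin (n + 1) → Derivation k K K) (z : Fin (n + 1) → K)
    (A : Subalgebra k K), Dat D z A → C < p →
    ∃ (x : K) (t : Fin (n + 1) → K) (a : Fin (n + 2) → Fin (n + 1) → k)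
      (F : Fin (n + 2) → MvPolynomial (Fin (n + 1)) k),
      LinearIndependent k (fun r => (Fin.cons 1 (a r) : Fin (n + 2) → k)) ∧
      ∀ r, Ch1 D A C (tl x t (a r)) t (F r) := by
  obtain ⟨C₀, hC₀⟩ := TG91.c42_2.{u} n (2 * (n + 1)) ∅
  refine ⟨max 1 C₀, ?_⟩
  intro k K _ _ _ _ _ p _ _ D z A dat hp
  have hring : ringChar k = 0 ∨ C₀ < ringChar k := by
    right
    rw [ringChar.eq k p] at *
    exact lt_of_le_of_lt (le_max_right _ _) hp
  obtain ⟨S, hS, hSA, -, hext, hgen⟩ := hC₀ k K D z A dat hring 0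
  have i1 : FiniteDimensional k S := Module.Finite.iff_fg.2 hS
  let bS := Module.finBasis k S
  let e : Fin (Module.finrank k S) → K := fun j => (bS j : K)
  have heli : LinearIndependent k e :=
    bS.linearIndependent.map' S.subtype (Submodule.ker_subtype S)
  have hes : Submodule.span k (Set.range e) = S := by
    have h1 : Set.range e = S.subtype '' Set.range bS := by
      rw [← Set.range_comp]
      rfl
    rw [h1, ← Submodule.map_span, bS.span_eq, Submodule.map_top, Submodule.range_subtype]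
  obtain ⟨Φ, hΦ, hgenΦ⟩ := hgen _ e hes
  have htr : Algebra.trdeg k K = (n + 1 : ℕ) := by
    rw [dat.trd]
    norm_cast
  obtain ⟨B, Cf, hbase⟩ := TG42C1.exists_base dat.fgK htr D A dat.fg e heli
    (fun _ : Fin 0 => (0 : K))
  obtain ⟨F₀, hF₀c, hF₀i, hF₀⟩ := TGh13c.exists_subfield (Cf ∪ Φ.coeffs)
  have hb := (hbase F₀ fun c hc => ⟨⟨c, hF₀ c (Finset.mem_union_left _ hc)⟩, rfl⟩).1
  obtain ⟨c, hc⟩ := TGh13c.exists_algInd F₀ hF₀c (Fin (n + 2) × Fin (Module.finrank k S))
  have hcΦ : eval c Φ ≠ 0 := by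
    refine TGh13c.eval_ne_zero hc hΦ fun m => ?_
    by_cases hm : coeff m Φ = 0
    · rw [hm]
      exact zero_mem _
    · exact hF₀ _ (Finset.mem_union_right _ (mem_coeffs_iff.2 ⟨m, mem_support_iff.2 hm, rfl⟩))
  obtain ⟨hAd, hBp, G, hG, hGa⟩ := hgenΦ c hcΦ
  obtain ⟨a, haF, haG, hali⟩ := TGh13c.exists_basis_pts (F₀ : Set k) hF₀i G hG
  have hall : ∀ r, ∃ F : MvPolynomial (Fin (n + 1)) k,
      Ch1 D A (max 1 C₀) (tl (cx e c) (ct e c) (a r)) (ct e c) F := by
    intro r
    obtain ⟨hA, hBf, F, hF, hP1, -, hord, hdg⟩ := hGa (a r) (haG r)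
    have hreach : ∀ η, Reached D A S (2 * (n + 1)) (tl (cx e c) (ct e c) (a r)) (ct e c) η := by
      intro η
      have h1 := TG42C1.reached F₀ k K inferInstance n _ D z A dat e _ hb S hes
        (fun S' hS' hcod => by
          obtain ⟨⟨x, t, h2, -⟩, -⟩ := hext S' hS' hcod
          exact ⟨x, t, h2⟩) (ca c (a r))
        (algInd_ca hc fun i => ⟨⟨a r i, haF r i⟩, rfl⟩) (by rw [cx_ca, ct_ca]; exact hA)
        (by rw [cx_ca, ct_ca]; exact hBf) η
      rwa [cx_ca, ct_ca] at h1
    refine ⟨F, hSA _ hA.x_mem, fun i => hSA _ (hA.t_mem i), hA.ne, hF, ?_, ?_, ?_⟩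
    · intro v hv q hq hu
      obtain ⟨h1, h2, h3⟩ := hP1 v hv q hq hu
      refine ⟨h1, h2, ?_⟩
      rw [Wr_tl]
      exact h3
    · intro η
      exact ordLe_of_ordAt hF ((hord η (hreach η)).trans (le_max_right _ _))
    · intro E hE v₀ hv₀ hmem
      have hyE : ∀ j, crd (tl (cx e c) (ct e c) (a r)) (ct e c) j ∈ E := by
        intro j
        rw [hE]
        exact IntermediateField.subset_adjoin _ _ ⟨j, rfl⟩
      let y : Fin (n + 1) → E := fun j => ⟨_, hyE j⟩
      choose η hη using fun j => hv₀.res (y j) (hmem j (hyE j))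
      have h1 := TG77.h1_reached dat hSA hA (hreach η) (C := C₀)
        (fun S' hS' hcod w hw hb => hdg η S' hS' hcod w hw hb) hE y (fun i => rfl) hv₀ hη
      rw [Pm_eq_spn (crd (tl (cx e c) (ct e c) (a r)) (ct e c)) y fun i => rfl] at h1
      exact h1
  choose F hF using hall
  exact ⟨cx e c, ct e c, a, F, hali, hF⟩

end Pool.Agent.TG42A
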