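import Pool.Agent.Lib.TG_h83.AsmDat

/-!
# C42, assembly of PROJ: row DATL
-/

set_option autoImplicit false

namespace Pool.Agent.TG42A

open Pool.Agent.TG1 (Dat)

universe u

/-- Row DATL: the data, `A` a localisation of `A₀`. -/
theorem exists_datl {k K : Type u} [Field k] [Field K] [Algebra k K] [IsAlgClosed k] (n : ℕ)
    (hK : (⊤ : IntermediateField k K).FG) (ht : Algebra.trdeg k K = n + 1) (A₀ : Subalgebra k K)
    (hfg : A₀.FG) (hfr : ∀ x : K, ∃ a ∈ A₀, ∃ s ∈ A₀, s ≠ 0 ∧ x = a / s) :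
    ∃ (D : Fin (n + 1) → Derivation k K K) (z : Fin (n + 1) → K) (A : Subalgebra k K),
      Dat D z A ∧ A₀ ≤ A ∧ ∀ a ∈ A, ∃ c ∈ A₀, ∃ s ∈ A₀, s ≠ 0 ∧ s⁻¹ ∈ A ∧ a = c / s := by
  obtain ⟨D, z, A, dat, hle, s, hs, hs0, hsA, h⟩ :=
    Pool.Agent.TG83A.exists_dat_loc n hK (by rw [ht]; push_cast; rfl) hfg hfr
  refine ⟨D, z, A, dat, hle, fun a ha => ?_⟩
  obtain ⟨m, hm⟩ := h a ha
  refine ⟨s ^ m * a, hm, s ^ m, A₀.pow_mem hs _, pow_ne_zero _ hs0, ?_, ?_⟩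
  · rw [← inv_pow]
    exact A.pow_mem hsA _
  · rw [mul_div_cancel_left₀ _ (pow_ne_zero _ hs0)]

end Pool.Agent.TG42A
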