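import Pool.Agent.Lib.TG42.C3Stmt
import Pool.Agent.Lib.TG91.Defs
import Pool.Agent.Lib.TG_h81.ProjP

/-!
# C42, assembly of PROJ: definitions

`X : Fin (n + 2) → K` the generic tuple of `S` (homogeneous coordinates of the first projection
`K → P^(n+1)`), `g` generic forms of degree `δ` in `n + 2` variables, the final projection is
`g(X)`.
-/

set_option autoImplicit false

namespace Pool.Agent.TG42A

open MvPolynomial
open Pool.Agent.TG (Ov ZDim IsMin LB KB PB PP spn PDiv RV LDeg)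
open Pool.Agent.TGh33 (Wr)
open Pool.Agent.TG1 (OverP Dat)
open Pool.Agent.TG42 (mI hh wr OrdLe)

universe u

variable {k K : Type u} [Field k] [Field K] [Algebra k K] {n : ℕ}

/-- The affine coordinates in the chart `i`: `cr X i = crd (X i) (X ∘ i.succAbove)`. -/
def cr (X : Fin (n + 2) → K) (i : Fin (n + 2)) : Fin (n + 1) → K :=
  fun j => X (i.succAbove j) / X i

/-- Dehomogenisation in the chart `i`. -/
noncomputable def dh (i : Fin (n + 2)) :
    MvPolynomial (Fin (n + 2)) k →ₐ[k] MvPolynomial (Fin (n + 1)) k :=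
  aeval (i.insertNth (α := fun _ => MvPolynomial (Fin (n + 1)) k) 1 fun j => MvPolynomial.X j)

/-- `k(X_i / X_j)`. -/
def EX (k : Type u) {K : Type u} [Field k] [Field K] [Algebra k K] {n : ℕ}
    (X : Fin (n + 2) → K) : IntermediateField k K :=
  IntermediateField.adjoin k (Set.range fun q : Fin (n + 2) × Fin (n + 2) => X q.1 / X q.2)

/-- `b i = g_(i+1)(X) / g_0(X)`. -/
noncomputable def bb (X : Fin (n + 2) → K) (g : Fin (n + 2) → MvPolynomial (Fin (n + 2)) k)
    (i : Fin n) : K := aeval X (g i.castSucc.succ) / aeval X (g 0)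

/-- `z = g_(n+1)(X) / g_0(X)`. -/
noncomputable def zz (X : Fin (n + 2) → K) (g : Fin (n + 2) → MvPolynomial (Fin (n + 2)) k) : K :=
  aeval X (g (Fin.last (n + 1))) / aeval X (g 0)

/-- The forms `g` in the chart `i`. -/
noncomputable def gi (g : Fin (n + 2) → MvPolynomial (Fin (n + 2)) k) (i : Fin (n + 2)) :
    Fin (n + 2) → MvPolynomial (Fin (n + 1)) k := fun j => dh i (g j)

/-- `v` is good for `X` in the chart `i`. -/
structure GdAt (D : Fin (n + 1) → Derivation k K K) (A : Subalgebra k K) (X : Fin (n + 2) → K)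
    (v : ValuationSubring K) (i : Fin (n + 2)) : Prop where
  good : TG1.Good D A v
  unit : v.valuation (X i) = 1
  wr : v.valuation (Wr D X / X i ^ (n + 2)) = 1

/-- Output of C1 + C2 + H1: the first projection. -/
structure Charts (D : Fin (n + 1) → Derivation k K K) (A : Subalgebra k K) (C : ℕ)
    (X : Fin (n + 2) → K) (F : Fin (n + 2) → MvPolynomial (Fin (n + 1)) k) : Prop where
  mem : ∀ i, X i ∈ A
  wr : Wr D X ≠ 0
  ne : ∀ i, F i ≠ 0
  /-- outside of `F = 0` everything is good -/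
  gd : ∀ i (v : ValuationSubring K), Ov k v →
    ∀ q : MvPolynomial (Fin (n + 1)) k, OverP (cr X i) v q →
    v.valuation (aeval (cr X i) (F i)) = 1 → GdAt D A X v i
  /-- the order of `F` at all points -/
  ord : ∀ i (η : Fin (n + 1) → k), OrdLe η (F i) C
  /-- the local degrees of `K / k(X_i / X_j)` at all points -/
  deg : ∀ E : IntermediateField k K, E = EX k X → ∀ v₀ : ValuationSubring E, ZDim k v₀ →
    LDeg K v₀ (RV v₀ (spn E (Set.range fun j => X j / X 0))) C

/-- Output of C3: the second projection `g : P^(n+1) → P^(n+1)`. -/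
structure Jets (T δ : ℕ) (F : Fin (n + 2) → MvPolynomial (Fin (n + 1)) k)
    (g : Fin (n + 2) → MvPolynomial (Fin (n + 2)) k) : Prop where
  pos : 0 < δ
  hom : ∀ j, (g j).IsHomogeneous δ
  wr_ne : ∀ i, wr (gi g i) ≠ 0
  ne : ∀ i (η : Fin (n + 1) → k), ∃ j, eval η (gi g i j) ≠ 0
  one : ∀ i (η : Fin (n + 1) → k) i₀, eval η (gi g i i₀) ≠ 0 →
    mI η ^ T ≤ Ideal.span (Set.range (hh (gi g i) η i₀)) ⊔ mI η ^ (T + 1)
  two : ∀ i (η : Fin (n + 1) → k) i₀ l, i₀ ≠ l → eval η (gi g i i₀) ≠ 0 →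
    mI η ^ T ≤ Ideal.span (hh (gi g i) η i₀ '' {j | j ≠ l}) ⊔ Ideal.span {F i * wr (gi g i)} ⊔
      mI η ^ (T + 1)
  cen : ∀ i (η : Fin (n + 1) → k) l, (∀ j, j ≠ l → eval η (gi g i j) = 0) →
    eval η (F i) ≠ 0 ∧ eval η (wr (gi g i)) ≠ 0

/-- `v` is bad. -/
def BadX (D : Fin (n + 1) → Derivation k K K) (A : Subalgebra k K) (X : Fin (n + 2) → K)
    (g : Fin (n + 2) → MvPolynomial (Fin (n + 2)) k) (v : ValuationSubring K) : Prop :=
  ¬ ∃ i, (∀ j, X j / X i ∈ v) ∧ GdAt D A X v i ∧ v.valuation (aeval (cr X i) (wr (gi g i))) = 1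

/-- The conclusion of `ProjP` for a bad `v`. -/
def BadConcl (k : Type u) {K : Type u} [Field k] [Field K] [Algebra k K] {m : ℕ} (b : Fin m → K)
    (z : K) (d : ℕ) (v : ValuationSubring K) : Prop :=
  ∃ (M : Type u) (_ : Field M) (_ : Algebra (LB k b) M) (r : M),
    FiniteDimensional (LB k b) M ∧ Algebra.IsSeparable (LB k b) M ∧
    (∀ v₀ : ValuationSubring (LB k b), ZDim k v₀ → LDeg M v₀ (RV v₀ (PB k b)) d) ∧
    v.valuation (Polynomial.aeval z (minpoly (LB k b) r)) < 1

end Pool.Agent.TG42A
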