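import Pool.Agent.Lib.TG42A.Defs

/-!
# C42, assembly of PROJ: one affine chart of the first projection
-/

set_option autoImplicit false

namespace Pool.Agent.TG42A

open MvPolynomial
open Pool.Agent.TG (Ov ZDim IsMin spn RV LDeg)
open Pool.Agent.TGh33 (Wr)
open Pool.Agent.TG1 (OverP Dat Adm Bpf crd kq dg tl)
open Pool.Agent.TG91 (Reached)
open Pool.Agent.TG42 (OrdLe)

universe u

variable {k K : Type u} [Field k] [Field K] [Algebra k K] {n : ℕ}

/-- One affine chart of the first projection. -/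
structure Ch1 (D : Fin (n + 1) → Derivation k K K) (A : Subalgebra k K) (C : ℕ) (x : K)
    (t : Fin (n + 1) → K) (F : MvPolynomial (Fin (n + 1)) k) : Prop where
  mem_x : x ∈ A
  mem_t : ∀ i, t i ∈ A
  wr : Wr D (Fin.cons x t) ≠ 0
  ne : F ≠ 0
  gd : ∀ v : ValuationSubring K, Ov k v → ∀ q : MvPolynomial (Fin (n + 1)) k,
    OverP (crd x t) v q → v.valuation (aeval (crd x t) F) = 1 →
    TG1.Good D A v ∧ v.valuation x = 1 ∧ v.valuation (Wr D (Fin.cons x t) / x ^ (n + 2)) = 1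
  ord : ∀ η : Fin (n + 1) → k, OrdLe η F C
  deg : ∀ E : IntermediateField k K, E = kq k x t → ∀ v₀ : ValuationSubring E, ZDim k v₀ →
    (∀ j, ∀ h : crd x t j ∈ E, (⟨crd x t j, h⟩ : E) ∈ v₀) →
    LDeg K v₀ (RV v₀ (spn E (insert 1 (Set.range (crd x t))))) C

end Pool.Agent.TG42A
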