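import Pool.Agent.Lib.TG42A.PDiv0
import Pool.Agent.Lib.TG_h21.R13c

/-!
# C42, assembly of PROJ, row FIN: finitely many bad prime divisors
-/

set_option autoImplicit false

namespace Pool.Agent.TG42A

open MvPolynomial
open Pool.Agent.TG (Ov ZDim IsMin LB KB PB PP spn PDiv RV LDeg Abz)
open Pool.Agent.TGh33 (Wr)
open Pool.Agent.TG1 (OverP Dat)
open Pool.Agent.TG42 (mI hh wr OrdLe)

universe u

/-- Finitely many prime divisors of `Spec k[b, z]` in `K` are zeros of a given element. -/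
theorem pdiv_zero_finite {k K : Type u} [Field k] [Field K] [Algebra k K] {m : ℕ} {b : Fin m → K}
    {z : K} [PerfectField k] (hK : (⊤ : IntermediateField k K).FG)
    (halg : Algebra.IsAlgebraic (KB k b z) K) {u : K} (hu : u ≠ 0) :
    {v : ValuationSubring K | PDiv k b z v ∧ v.valuation u < 1}.Finite := by
  have hess : Algebra.EssFiniteType k K := IntermediateField.fg_top_iff.1 hK
  have hAalg := TG.Abz_isAlgebraic (b := b) (z := z) halg
  have i1 := TG.isFractionRing_ncl (Abz k b z) hAalg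
  have i3 := TG.isNoetherianRing_ncl hK (Abz k b z) (TG.Abz_fg b z) hAalg
  obtain ⟨a, ha, s, hs, hs0, e⟩ := TG.exists_div_ncl (Abz k b z) (TG.Abz_isAlgebraic halg u)
  have ha0 : a ≠ 0 := by
    rintro rfl
    rw [zero_div] at e
    exact hu e
  have h1 := TGJ.finite_div (k := k) (K := K) (S := TG.ncl (Abz k b z)) ⟨a, ha⟩
    (fun h0 => ha0 (congrArg Subtype.val h0))
  refine h1.subset ?_
  rintro v ⟨hv, hvu⟩
  have hd := TG21.pdiv_isDiv hK halg hv
  refine ⟨hd, ?_⟩
  rw [TGJ.mem_cen (TG21.ncl_le_v hv)]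
  change v.valuation a < 1
  have h2 : a = u * s := by rw [e, div_mul_cancel₀ _ hs0]
  rw [h2, map_mul]
  exact (mul_le_of_le_one_right zero_le
    ((v.valuation_le_one_iff _).2 (TG21.Abz_le_v hv s hs))).trans_lt hvu

variable {k K : Type u} [Field k] [Field K] [Algebra k K] {n : ℕ}
  {D : Fin (n + 1) → Derivation k K K} {z : Fin (n + 1) → K} {A : Subalgebra k K} {C T δ : ℕ}
  {X : Fin (n + 2) → K} {F : Fin (n + 2) → MvPolynomial (Fin (n + 1)) k}
  {g : Fin (n + 2) → MvPolynomial (Fin (n + 2)) k}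

/-- Every valuation ring lies in some chart. -/
theorem exists_chart (hX : ∀ i, X i ≠ 0) (v : ValuationSubring K) :
    ∃ i, ∀ j, X j / X i ∈ v := by
  obtain ⟨i, hi⟩ := Finite.exists_max fun i => v.valuation (X i)
  refine ⟨i, fun j => ?_⟩
  rw [← v.valuation_le_one_iff, map_div₀]
  have h0 : v.valuation (X i) ≠ 0 := by
    rw [Ne, Valuation.zero_iff]
    exact hX i
  exact div_le_one_of_le₀ (hi j) zero_le

/-- A bad `v` is a zero of `F i * W(g)`. -/
theorem val_lt_of_bad (hc : Charts D A C X F) {v : ValuationSubring K} (hov : Ov k v)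
    {i : Fin (n + 2)} (hi : ∀ j, X j / X i ∈ v) {q : MvPolynomial (Fin (n + 1)) k}
    (hq : OverP (cr X i) v q) (hbad : BadX D A X g v) :
    v.valuation (aeval (cr X i) (F i * wr (gi g i))) < 1 := by
  have hX : ∀ j, cr X i j ∈ v := fun j => hi _
  have hm1 := val_le_of_mem hov hX (F i)
  have hm2 := val_le_of_mem hov hX (wr (gi g i))
  rw [map_mul, map_mul]
  rcases hm1.lt_or_eq with h1 | h1
  · exact (mul_le_of_le_one_right zero_le hm2).trans_lt h1
  rcases hm2.lt_or_eq with h2 | h2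
  · rw [h1, one_mul]; exact h2
  exact absurd ⟨i, hi, hc.gd i v hov q hq h1, h2⟩ hbad

/-- Row FIN, over PDIV and SEP. -/
theorem bad_finite_of [PerfectField k] (dat : Dat D z A) (hc : Charts D A C X F)
    (hwr : ∀ i, wr (gi g i) ≠ 0) (halg : Algebra.IsAlgebraic (KB k (bb X g) (zz X g)) K)
    (hov : ∀ v : ValuationSubring K, PDiv k (bb X g) (zz X g) v → ∀ i, (∀ j, X j / X i ∈ v) →
      ∃ q : MvPolynomial (Fin (n + 1)) k, OverP (cr X i) v q) :
    {v : ValuationSubring K | PDiv k (bb X g) (zz X g) v ∧ BadX D A X g v}.Finite := by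
  have hX := X_ne_zero_of_wr hc.wr
  have hu : ∀ i, aeval (cr X i) (F i * wr (gi g i)) ≠ 0 := fun i h0 =>
    mul_ne_zero (hc.ne i) (hwr i) ((cr_ind dat hc.wr i) (h0.trans (map_zero _).symm))
  refine (Set.finite_iUnion fun i => pdiv_zero_finite dat.fgK halg (hu i)).subset ?_
  rintro v ⟨hv, hbad⟩
  obtain ⟨i, hi⟩ := exists_chart hX v
  obtain ⟨q, hq⟩ := hov v hv i hi
  exact Set.mem_iUnion.2 ⟨i, hv, val_lt_of_bad hc hv.ov hi hq hbad⟩

end Pool.Agent.TG42A
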