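import Pool.Agent.Lib.TG42A.Defs1
import Pool.Agent.Lib.TG_h77.H1All

/-!
# C42, assembly of PROJ: row H1 (local degrees of `K / k(t / x)` in one chart)
-/

set_option autoImplicit false

namespace Pool.Agent.TG42A

open MvPolynomial
open Pool.Agent.TG (Ov ZDim IsMin spn RV LDeg)
open Pool.Agent.TGh33 (Wr)
open Pool.Agent.TG1 (OverP Dat Adm Bpf crd kq dg tl)
open Pool.Agent.TG91 (Reached)
open Pool.Agent.TG42 (OrdLe)
open Pool.Agent.TG77 (Pm h1_reached one_mem_Pm mem_Pm)

universe u

section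

variable {k K : Type u} [Field k] [Field K] [Algebra k K] {n : ℕ}

/-- The span in the subfield. -/
theorem spn_span {E : IntermediateField k K} {S : Set K} {S' : Set E}
    (h : (fun a : E => (a : K)) '' S' = S) : spn E S = Submodule.span k S' := by
  have h1 : Submodule.span k S = (Submodule.span k S').map E.val.toLinearMap := by
    rw [Submodule.map_span, ← h]
    rfl
  unfold spn
  rw [h1]
  exact Submodule.comap_map_eq_of_injective (fun a b hab => Subtype.ext hab) _

theorem spn_eq_Pm {E : IntermediateField k K} {m : ℕ} {f : Fin m → K} (y : Fin m → E)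
    (hy : ∀ i, (y i : K) = f i) : spn E (insert 1 (Set.range f)) = Pm k y := by
  refine spn_span ?_
  rw [Set.image_insert_eq, ← Set.range_comp]
  congr 2
  funext i
  exact hy i

variable {D : Fin (n + 1) → Derivation k K K} {z : Fin (n + 1) → K} {A : Subalgebra k K}

/-- Row H1. -/
theorem h1 {p : ℕ} [Fact p.Prime] [CharP k p] [IsAlgClosed k] (dat : Dat D z A)
    {S : Submodule k K} (_hS : S.FG)
    (hSA : ∀ a ∈ S, a ∈ A) {x : K} {t : Fin (n + 1) → K} (had : Adm D S x t) (_hb : Bpf S x t)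
    {s C : ℕ} (hR : ∀ η, Reached D A S s x t η)
    (hC : ∀ η : Fin (n + 1) → k, ∀ S' ≤ S, Module.finrank k S ≤ Module.finrank k S' + s →
      ∀ w, Adm D S' w (TG1.tr x t η) → Bpf S' w (TG1.tr x t η) →
        (dg k x t : ℤ) - dg k w (TG1.tr x t η) ≤ C)
    (E : IntermediateField k K) (hE : E = kq k x t) (v₀ : ValuationSubring E) (hv₀ : ZDim k v₀)
    (hc : ∀ j, ∀ h : crd x t j ∈ E, (⟨crd x t j, h⟩ : E) ∈ v₀) :
    LDeg K v₀ (RV v₀ (spn E (insert 1 (Set.range (crd x t))))) (max 1 C) := by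
  have hmem : ∀ j, crd x t j ∈ E := fun j => by
    rw [hE]
    exact IntermediateField.subset_adjoin _ _ ⟨j, rfl⟩
  choose η hη using fun j => hv₀.res _ (hc j (hmem j))
  rw [spn_eq_Pm (fun j => (⟨crd x t j, hmem j⟩ : E)) fun _ => rfl]
  exact h1_reached dat hSA had (hR η) (hC η) hE _ (fun _ => rfl) hv₀ hη

end

end Pool.Agent.TG42A
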