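import Pool.Agent.Lib.TG42A.AsmC0
import Pool.Agent.Lib.TG42A.H1
import Pool.Agent.Lib.TG_h77.Trans

/-!
# C42, assembly of PROJ, row ASM-b: the local degrees of `K` over `P^(n+1)`
-/

set_option autoImplicit false

namespace Pool.Agent.TG42A

open MvPolynomial
open Pool.Agent.TG (Ov ZDim IsMin LB KB PB PP spn PDiv RV NV LDeg IsModel Fin' upm ch)
open Pool.Agent.TGh33 (Wr)
open Pool.Agent.TG1 (OverP Dat)
open Pool.Agent.TG42 (mI hh wr OrdLe)
open Pool.Agent.TG77 (Pm)

universe u

section Pow

variable {k E : Type u} [Field k] [Field E] [Algebra k E]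

/-- Homogeneous polynomials in elements of `Q`. -/
theorem aeval_mem_pow {ι : Type} {δ : ℕ} {q : MvPolynomial ι k} (hq : q.IsHomogeneous δ)
    {Q : Submodule k E} {y : ι → E} (hy : ∀ i, y i ∈ Q) : aeval y q ∈ Q ^ δ := by
  rw [aeval_def, eval₂_eq]
  refine Submodule.sum_mem _ fun s hs => ?_
  rw [← Algebra.smul_def]
  refine Submodule.smul_mem _ _ ?_
  have h1 : s.degree = δ := by
    rw [Finsupp.degree_eq_weight_one]
    exact hq (mem_support_iff.1 hs)
  rw [← h1, Finsupp.degree_apply]
  have h2 : ∀ t : Finset ι, ∏ i ∈ t, y i ^ s i ∈ Q ^ (∑ i ∈ t, s i) := by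
    classical
    intro t
    induction t using Finset.induction_on with
    | empty =>
      rw [Finset.prod_empty, Finset.sum_empty, pow_zero]
      exact Submodule.one_le.1 le_rfl
    | insert a t ha ih =>
      rw [Finset.prod_insert ha, Finset.sum_insert ha, pow_add]
      exact Submodule.mul_mem_mul (Submodule.pow_mem_pow _ (hy a) _) ih
  exact h2 _

end Pow

section EX

variable {k K : Type u} [Field k] [Field K] [Algebra k K] {n : ℕ}

/-- `X_q / X_i` as an element of `EX`. -/
noncomputable def eX (k : Type u) {K : Type u} [Field k] [Field K] [Algebra k K] {n : ℕ}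
    (X : Fin (n + 2) → K) (q i : Fin (n + 2)) : EX k X :=
  ⟨X q / X i, IntermediateField.subset_adjoin _ _ ⟨(q, i), rfl⟩⟩

theorem EX_eq (X : Fin (n + 2) → K) (i : Fin (n + 2)) (hX : ∀ i, X i ≠ 0) :
    EX k X = IntermediateField.adjoin k (Set.range (cr X i)) := by
  have h1 : ∀ q, X q / X i ∈ IntermediateField.adjoin k (Set.range (cr X i)) := by
    intro q
    induction q using Fin.succAboveCases i with
    | x =>
      rw [div_self (hX i)]
      exact one_mem _
    | p j => exact IntermediateField.subset_adjoin _ _ ⟨j, rfl⟩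
  apply le_antisymm
  · unfold EX
    rw [IntermediateField.adjoin_le_iff]
    rintro _ ⟨⟨q, r⟩, rfl⟩
    have h2 : X q / X r = (X q / X i) / (X r / X i) := by
      rw [div_div_div_cancel_right₀ (hX i)]
    change X q / X r ∈ IntermediateField.adjoin k (Set.range (cr X i))
    rw [h2]
    exact div_mem (h1 q) (h1 r)
  · rw [IntermediateField.adjoin_le_iff]
    rintro _ ⟨j, rfl⟩
    exact IntermediateField.subset_adjoin _ _ ⟨(i.succAbove j, i), rfl⟩

/-- The coordinates of a chart in `EX`. -/
noncomputable def eC (k : Type u) {K : Type u} [Field k] [Field K] [Algebra k K] {n : ℕ}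
    (X : Fin (n + 2) → K) (i : Fin (n + 2)) (j : Fin (n + 1)) : EX k X :=
  eX k X (i.succAbove j) i

theorem adjoin_eC (X : Fin (n + 2) → K) (i : Fin (n + 2)) (hX : ∀ i, X i ≠ 0) :
    IntermediateField.adjoin k (Set.range (eC k X i)) = ⊤ := by
  have h1 : (IntermediateField.adjoin k (Set.range (eC k X i))).map (EX k X).val = EX k X := by
    rw [IntermediateField.adjoin_map, ← Set.range_comp]
    exact (EX_eq X i hX).symm
  apply IntermediateField.map_injective (EX k X).val
  rw [h1, ← AlgHom.fieldRange_eq_map]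
  exact (IntermediateField.fieldRange_val _).symm

/-- The model `P^(n+1)` of `EX`. -/
noncomputable def mQ (k : Type u) {K : Type u} [Field k] [Field K] [Algebra k K] {n : ℕ}
    (X : Fin (n + 2) → K) : Submodule k (EX k X) := Submodule.span k (Set.range fun q => eX k X q 0)

theorem mQ_eq (X : Fin (n + 2) → K) : spn (EX k X) (Set.range fun j => X j / X 0) = mQ k X := by
  refine spn_span ?_
  rw [← Set.range_comp]
  rfl

theorem eX_mem (X : Fin (n + 2) → K) (q : Fin (n + 2)) : eX k X q 0 ∈ mQ k X :=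
  Submodule.subset_span ⟨q, rfl⟩

theorem mQ_model (X : Fin (n + 2) → K) (hX : ∀ i, X i ≠ 0) : IsModel (mQ k X) := by
  refine ⟨Submodule.fg_span (Set.finite_range _), fun h => ?_⟩
  have h1 := eX_mem (k := k) X 0
  rw [h, Submodule.mem_bot] at h1
  have h2 : X 0 / X 0 = 0 := congrArg Subtype.val h1
  rw [div_self (hX 0)] at h2
  exact one_ne_zero h2

theorem eX_mul (X : Fin (n + 2) → K) (hX : ∀ i, X i ≠ 0) (q i : Fin (n + 2)) :
    eX k X i 0 * eX k X q i = eX k X q 0 := by
  apply Subtype.ext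
  change X i / X 0 * (X q / X i) = X q / X 0
  have := hX i
  have := hX 0
  field_simp

/-- The model in the chart `i`. -/
theorem Pm_eC (X : Fin (n + 2) → K) (hX : ∀ i, X i ≠ 0) (i : Fin (n + 2)) (g : EX k X) :
    g ∈ Pm k (eC k X i) ↔ eX k X i 0 * g ∈ mQ k X := by
  have hi0 : eX k X i 0 ≠ 0 := by
    intro h
    have h2 : X i / X 0 = 0 := congrArg Subtype.val h
    exact div_ne_zero (hX i) (hX 0) h2
  constructor
  · intro hg
    have h1 : Pm k (eC k X i) ≤ (mQ k X).comap (LinearMap.mulLeft k (eX k X i 0)) := by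
      unfold Pm
      rw [Submodule.span_le]
      rintro _ (rfl | ⟨j, rfl⟩)
      · change eX k X i 0 * 1 ∈ mQ k X
        rw [mul_one]
        exact eX_mem X i
      · change eX k X i 0 * eX k X (i.succAbove j) i ∈ mQ k X
        rw [eX_mul X hX]
        exact eX_mem X _
    exact h1 hg
  · intro hg
    have h1 : mQ k X ≤ (Pm k (eC k X i)).comap (LinearMap.mulLeft k (eX k X i 0)⁻¹) := by
      unfold mQ
      rw [Submodule.span_le]
      rintro _ ⟨q, rfl⟩
      change (eX k X i 0)⁻¹ * eX k X q 0 ∈ Pm k (eC k X i)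
      rw [← eX_mul X hX q i, inv_mul_cancel_left₀ hi0]
      induction q using Fin.succAboveCases i with
      | x =>
        have h2 : eX k X i i = 1 := Subtype.ext (div_self (hX i))
        rw [h2]
        exact TG77.one_mem_Pm _
      | p j => exact TG77.mem_Pm (eC k X i) j
    have h2 := h1 hg
    change (eX k X i 0)⁻¹ * (eX k X i 0 * g) ∈ Pm k (eC k X i) at h2
    rwa [inv_mul_cancel_left₀ hi0] at h2

/-- Every valuation ring has a chart. -/
theorem exists_chart (X : Fin (n + 2) → K) (hX : ∀ i, X i ≠ 0) {V : ValuationSubring (EX k X)}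
    (hV : Ov k V) : ∃ i, IsMin V (mQ k X) (eX k X i 0) ∧ ∀ j, eC k X i j ∈ V := by
  classical
  have h1 : mQ k X = Submodule.span k
      ((Finset.univ.image fun q => eX k X q 0 : Finset (EX k X)) : Set (EX k X)) := by
    unfold mQ
    rw [Finset.coe_image, Finset.coe_univ, Set.image_univ]
  obtain ⟨c, hc, hmin⟩ := TG.exists_isMin_mem hV (Finset.univ.image fun q => eX k X q 0) (by
    refine ⟨eX k X 0 0, Finset.mem_image.2 ⟨0, Finset.mem_univ _, rfl⟩, fun h => ?_⟩
    have h2 : X 0 / X 0 = 0 := congrArg Subtype.val h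
    rw [div_self (hX 0)] at h2
    exact one_ne_zero h2)
  obtain ⟨i, -, rfl⟩ := Finset.mem_image.1 hc
  rw [← h1] at hmin
  refine ⟨i, hmin, fun j => ?_⟩
  have h2 := hmin.div _ (eX_mem X (i.succAbove j))
  rw [← eX_mul X hX (i.succAbove j) i, mul_div_cancel_left₀ _ hmin.ne] at h2
  exact h2

end EX

section Main

variable {k K : Type u} [Field k] [Field K] [Algebra k K] {n : ℕ}
  {D : Fin (n + 1) → Derivation k K K} {A : Subalgebra k K} {C T δ : ℕ}
  {X : Fin (n + 2) → K} {F : Fin (n + 2) → MvPolynomial (Fin (n + 1)) k}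
  {g : Fin (n + 2) → MvPolynomial (Fin (n + 2)) k}

theorem upm_self {E : Type u} [Field E] [Algebra k E] (S : Submodule k E) : upm E S = S := by
  ext x
  constructor
  · rintro ⟨a, ha, rfl⟩
    exact ha
  · exact fun h => ⟨x, h, rfl⟩

/-- `g_j(X) / X_0 ^ δ` in `EX`. -/
noncomputable def eG (X : Fin (n + 2) → K) (g : Fin (n + 2) → MvPolynomial (Fin (n + 2)) k)
    (j : Fin (n + 2)) : EX k X := aeval (fun q => eX k X q 0) (g j)

theorem aeval_val {ι : Type} {E : IntermediateField k K} (y : ι → E) (p : MvPolynomial ι k) :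
    ((aeval y p : E) : K) = aeval (fun i => (y i : K)) p :=
  (aeval_algebraMap_apply (B := K) y p).symm

theorem eG_coe (hX : ∀ i, X i ≠ 0) (hg : ∀ j, (g j).IsHomogeneous δ) (j : Fin (n + 2)) :
    aeval X (g j) = X 0 ^ δ * (eG X g j : K) := by
  unfold eG
  rw [aeval_val, aeval_hom X (hg j) (hX 0)]
  rfl

theorem eG_chart (hX : ∀ i, X i ≠ 0) (hg : ∀ j, (g j).IsHomogeneous δ) (i j : Fin (n + 2)) :
    eG X g j = eX k X i 0 ^ δ * aeval (eC k X i) (gi g i j) := by
  apply Subtype.ext
  change (eG X g j : K) = (X i / X 0) ^ δ * ((aeval (eC k X i) (gi g i j) : EX k X) : K)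
  unfold eG
  rw [aeval_val, aeval_val]
  change aeval (fun q => X q / X 0) (g j) = (X i / X 0) ^ δ * aeval (cr X i) (dh i (g j))
  rw [aeval_hom (fun q => X q / X 0) (hg j) (div_ne_zero (hX i) (hX 0)), aeval_dh X i (hX i)]
  congr 3
  funext q
  rw [div_div_div_cancel_right₀ (hX 0)]

theorem ratio_eG (hX : ∀ i, X i ≠ 0) (hg : ∀ j, (g j).IsHomogeneous δ) (j l : Fin (n + 2)) :
    aeval X (g j) / aeval X (g l) = (eG X g j / eG X g l : EX k X) := by
  rw [eG_coe hX hg, eG_coe hX hg, mul_div_mul_left _ _ (pow_ne_zero _ (hX 0))]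
  rfl

theorem range_ratio (hg0 : aeval X (g 0) ≠ 0) :
    Set.range (fun j => aeval X (g j) / aeval X (g 0)) =
      insert 1 (insert (zz X g) (Set.range (bb X g))) := by
  ext a
  constructor
  · rintro ⟨j, rfl⟩
    refine Fin.cases ?_ (fun j => ?_) j
    · left
      exact div_self hg0
    · refine Fin.lastCases ?_ (fun j => ?_) j
      · right; left
        rw [Fin.succ_last]
        rfl
      · right; right
        exact ⟨j, rfl⟩
  · rintro (rfl | rfl | ⟨j, rfl⟩)
    · exact ⟨0, div_self hg0⟩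
    · exact ⟨Fin.last (n + 1), rfl⟩
    · exact ⟨j.castSucc.succ, rfl⟩

theorem mem_KB (hg0 : aeval X (g 0) ≠ 0) (j : Fin (n + 2)) :
    aeval X (g j) / aeval X (g 0) ∈ KB k (bb X g) (zz X g) := by
  have h1 : aeval X (g j) / aeval X (g 0) ∈
      insert 1 (insert (zz X g) (Set.range (bb X g))) := by
    rw [← range_ratio hg0]
    exact ⟨j, rfl⟩
  rcases h1 with h1 | h1
  · rw [h1]
    exact one_mem _
  · exact IntermediateField.subset_adjoin _ _ h1

/-- `g_j(X) / g_0(X)` in `KB`. -/
noncomputable def rK (hg0 : aeval X (g 0) ≠ 0) (j : Fin (n + 2)) : KB k (bb X g) (zz X g) :=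
  ⟨aeval X (g j) / aeval X (g 0), mem_KB hg0 j⟩

theorem PP_eq (hg0 : aeval X (g 0) ≠ 0) :
    PP k (bb X g) (zz X g) = Submodule.span k (Set.range (rK hg0)) := by
  refine spn_span ?_
  rw [← Set.range_comp, ← range_ratio hg0]
  rfl

theorem KB_le (hX : ∀ i, X i ≠ 0) (hg : ∀ j, (g j).IsHomogeneous δ) : KB k (bb X g) (zz X g) ≤ EX k X := by
  have h1 : ∀ j, aeval X (g j) / aeval X (g 0) ∈ EX k X := by
    intro j
    rw [ratio_eG hX hg]
    exact SetLike.coe_mem _
  rw [IntermediateField.adjoin_le_iff]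
  rintro _ (rfl | ⟨j, rfl⟩)
  · exact h1 _
  · exact h1 _

/-- Row ASM-b, in terms of the facts of the row SEP. -/
theorem ldeg_all_of [IsAlgClosed k] (hX : ∀ i, X i ≠ 0) (hg0 : aeval X (g 0) ≠ 0)
    (hfd : FiniteDimensional (KB k (bb X g) (zz X g)) K)
    (hc : Charts D A C X F) (hj : Jets T δ F g)
    (v₀ : ValuationSubring (KB k (bb X g) (zz X g))) (hv₀ : ZDim k v₀) :
    LDeg K v₀ (RV v₀ (PP k (bb X g) (zz X g))) (C * T ^ (n + 1)) := by
  have hg := hj.hom
  have hFE := KB_le (k := k) hX hg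
  obtain ⟨t, rfl⟩ : ∃ t, δ = t + 1 := ⟨δ - 1, (Nat.sub_add_cancel hj.pos).symm⟩
  let _ : Algebra (KB k (bb X g) (zz X g)) (EX k X) :=
    (IntermediateField.inclusion hFE).toRingHom.toAlgebra
  have t1 : IsScalarTower k (KB k (bb X g) (zz X g)) (EX k X) :=
    IsScalarTower.of_algebraMap_eq fun _ => rfl
  have t2 : IsScalarTower (KB k (bb X g) (zz X g)) (EX k X) K :=
    IsScalarTower.of_algebraMap_eq fun _ => rfl
  have hE0 : eG X g 0 ≠ 0 := by
    intro h
    apply hg0
    rw [eG_coe hX hg, h, ZeroMemClass.coe_zero, mul_zero]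
  have hrK : ∀ j, algebraMap (KB k (bb X g) (zz X g)) (EX k X) (rK hg0 j) =
      eG X g j / eG X g 0 := by
    intro j
    apply Subtype.ext
    exact ratio_eG hX hg j 0
  set P := PP k (bb X g) (zz X g) with hPdef
  have hPs : P = Submodule.span k (Set.range (rK hg0)) := PP_eq hg0
  have hr0 : rK hg0 0 = 1 := Subtype.ext (div_self hg0)
  have hP : IsModel P := by
    rw [hPs]
    refine ⟨Submodule.fg_span (Set.finite_range _), fun h => ?_⟩
    have h1 : rK hg0 0 ∈ Submodule.span k (Set.range (rK hg0)) :=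
      Submodule.subset_span ⟨0, rfl⟩
    rw [h, Submodule.mem_bot, hr0] at h1
    exact one_ne_zero h1
  let T' : Submodule k (EX k X) := Submodule.span k (Set.range (eG X g))
  have hupm : upm (EX k X) P = Submodule.span k (Set.range fun j => eG X g j / eG X g 0) := by
    rw [hPs]
    unfold upm
    rw [Submodule.map_span, ← Set.range_comp]
    congr 2
    funext j
    exact hrK j
  have hT' : IsModel T' := by
    refine ⟨Submodule.fg_span (Set.finite_range _), fun h => ?_⟩
    have h1 : eG X g 0 ∈ T' := Submodule.subset_span ⟨0, rfl⟩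
    rw [h, Submodule.mem_bot] at h1
    exact hE0 h1
  have hu : (eG X g 0)⁻¹ ≠ 0 := inv_ne_zero hE0
  have hiff : ∀ a, a ∈ T' ↔ (eG X g 0)⁻¹ * a ∈ upm (EX k X) P := by
    intro a
    rw [hupm]
    constructor
    · intro ha
      have h1 : T' ≤ (Submodule.span k (Set.range fun j => eG X g j / eG X g 0)).comap
          (LinearMap.mulLeft k (eG X g 0)⁻¹) := by
        change Submodule.span k (Set.range (eG X g)) ≤ _
        rw [Submodule.span_le]
        rintro _ ⟨j, rfl⟩
        change (eG X g 0)⁻¹ * eG X g j ∈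
          Submodule.span k (Set.range fun j => eG X g j / eG X g 0)
        rw [mul_comm, ← div_eq_mul_inv]
        exact Submodule.subset_span ⟨j, rfl⟩
      exact h1 ha
    · intro ha
      have h1 : Submodule.span k (Set.range fun j => eG X g j / eG X g 0) ≤
          T'.comap (LinearMap.mulLeft k (eG X g 0)) := by
        rw [Submodule.span_le]
        rintro _ ⟨j, rfl⟩
        change eG X g 0 * (eG X g j / eG X g 0) ∈ T'
        rw [mul_div_cancel₀ _ hE0]
        exact Submodule.subset_span ⟨j, rfl⟩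
      have h2 := h1 ha
      change eG X g 0 * ((eG X g 0)⁻¹ * a) ∈ T' at h2
      rwa [mul_inv_cancel_left₀ hE0] at h2
  -- base point freeness
  have hb : TG.Bpf (mQ k X ^ (t + 1)) T' := by
    refine TG77.bpf_of_zdim ?_ fun V hV => ?_
    · change Submodule.span k (Set.range (eG X g)) ≤ _
      rw [Submodule.span_le]
      rintro _ ⟨j, rfl⟩
      exact aeval_mem_pow (hg j) fun q => eX_mem X q
    · obtain ⟨i, hmin, hmem⟩ := exists_chart X hX hV.ov
      choose η hη using fun j => hV.res _ (hmem j)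
      obtain ⟨j, hj0⟩ := hj.ne i η
      refine ⟨eG X g j, Submodule.subset_span ⟨j, rfl⟩, ?_⟩
      have h1 : IsMin V (mQ k X ^ (t + 1)) (eX k X i 0 ^ (t + 1)) :=
        TG.IsMin.pow hV.ov hmin (t + 1)
      refine TG.IsMin.of_val h1 (aeval_mem_pow (hg j) fun q => eX_mem X q) ?_
      rw [eG_chart hX hg i j, mul_div_cancel_left₀ _ h1.ne]
      exact TG24.aeval_unit hV.ov hη hj0
  have halg : FiniteDimensional (KB k (bb X g) (zz X g)) (EX k X) :=
    FiniteDimensional.left (KB k (bb X g) (zz X g)) (EX k X) K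
  have hF : (⊤ : IntermediateField k (KB k (bb X g) (zz X g))).FG := by
    have h1 : (IntermediateField.adjoin k (Set.range (rK hg0))) = ⊤ := by
      apply IntermediateField.map_injective (KB k (bb X g) (zz X g)).val
      rw [IntermediateField.adjoin_map, ← Set.range_comp, ← AlgHom.fieldRange_eq_map,
        IntermediateField.fieldRange_val]
      change IntermediateField.adjoin k (Set.range fun j => aeval X (g j) / aeval X (g 0)) = _
      rw [range_ratio hg0]
      apply le_antisymm
      · rw [IntermediateField.adjoin_le_iff]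
        rintro _ (rfl | h)
        · exact one_mem _
        · exact IntermediateField.subset_adjoin _ _ h
      · exact IntermediateField.adjoin.mono _ _ _ (Set.subset_insert _ _)
    rw [← h1]
    exact IntermediateField.fg_adjoin_of_finite (Set.finite_range _)
  have hPf : Fin' P := by
    have h1 : (IntermediateField.adjoin k {x : KB k (bb X g) (zz X g) | ∃ f ∈ P,
        ∃ g ∈ P, x = g / f}) = ⊤ := by
      apply IntermediateField.map_injective (KB k (bb X g) (zz X g)).val
      rw [IntermediateField.adjoin_map, ← AlgHom.fieldRange_eq_map,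
        IntermediateField.fieldRange_val]
      apply le_antisymm
      · rw [IntermediateField.adjoin_le_iff]
        rintro _ ⟨x, -, rfl⟩
        exact x.2
      · have h2 : ∀ j, aeval X (g j) / aeval X (g 0) ∈ IntermediateField.adjoin k
            ((KB k (bb X g) (zz X g)).val '' {x | ∃ f ∈ P, ∃ g ∈ P, x = g / f}) := by
          intro j
          refine IntermediateField.subset_adjoin _ _ ⟨rK hg0 j, ⟨rK hg0 0, ?_, rK hg0 j, ?_, ?_⟩,
            rfl⟩
          · rw [hPs]; exact Submodule.subset_span ⟨0, rfl⟩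
          · rw [hPs]; exact Submodule.subset_span ⟨j, rfl⟩
          · rw [hr0, div_one]
        rw [IntermediateField.adjoin_le_iff]
        rintro _ (rfl | ⟨j, rfl⟩)
        · exact h2 _
        · exact h2 _
    unfold Fin'
    rw [h1]
    exact ⟨fun x => isAlgebraic_algebraMap
      (⟨x, trivial⟩ : (⊤ : IntermediateField k (KB k (bb X g) (zz X g))))⟩
  have hz : ∀ W : ValuationSubring (EX k X),
      W.comap (algebraMap (KB k (bb X g) (zz X g)) (EX k X)) = v₀ → ZDim k W := fun W hW =>
    TG77.zdim_up (F := KB k (bb X g) (zz X g)) (hW.symm ▸ hv₀)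
  have h1 : LDeg (EX k X) v₀ (RV v₀ P) (T ^ (n + 1)) := by
    refine TG77.ldeg_of_len hF hv₀ hP hPf fun W hW => ?_
    have hWz := hz W hW
    obtain ⟨i, hmin, hmem⟩ := exists_chart X hX hWz.ov
    choose η hη using fun j => hWz.res _ (hmem j)
    obtain ⟨i₀, hi₀⟩ := hj.ne i η
    refine TG77.lenAt_chart hWz (eC k X i) (adjoin_eC X i hX) η hη (gi g i) i₀ hi₀
      (fun j => rK hg0 j / rK hg0 i₀) (fun j => ?_) 0 (map_zero _) ?_ ?_
    · rw [map_div₀, hrK, hrK, div_div_div_cancel_right₀ hE0, eG_chart hX hg i j,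
        eG_chart hX hg i i₀, mul_div_mul_left _ _ (pow_ne_zero _ hmin.ne)]
    · exact (hj.one i η i₀ hi₀).trans (sup_le_sup_right le_sup_left _)
    · have h2 : RV W (Pm k (eC k X i)) = RV W (mQ k X) :=
        (TG77.RV_of_smul hWz.ov (mQ_model X hX) hmin.ne (Pm_eC X hX i)).symm
      have h3 := TG77.NV_upm_eq (N := EX k X) hP.upm (mQ_model X hX) hb hT' hu hiff
        (W := W) hWz.ov
      rw [upm_self, upm_self] at h3
      rw [h2, h3]
      exact TG.RV_le_NV
  have h2 := TG77.ldeg_trans (K := K) hv₀.ov hP (mQ_model X hX) hb hT' hu hiff h1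
    fun w hw => by
      have h3 := hc.deg (EX k X) rfl w (hz w hw)
      rw [mQ_eq] at h3
      exact h3
  rwa [mul_comm] at h2

/-- Row ASM-b; `hs` is the conclusion of `proj_sep`. -/
theorem ldeg_all_of_sep [IsAlgClosed k] (hc : Charts D A C X F) (hj : Jets T δ F g)
    (hs : AlgebraicIndependent k (cr X 0) ∧ (∀ j, aeval X (g j) ≠ 0) ∧
      AlgebraicIndependent k (bb X g) ∧ Transcendental (LB k (bb X g)) (zz X g) ∧
      FiniteDimensional (KB k (bb X g) (zz X g)) K ∧
      Algebra.IsSeparable (KB k (bb X g) (zz X g)) K)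
    (v₀ : ValuationSubring (KB k (bb X g) (zz X g))) (hv₀ : ZDim k v₀) :
    LDeg K v₀ (RV v₀ (PP k (bb X g) (zz X g))) (C * T ^ (n + 1)) :=
  ldeg_all_of (X_ne_of_ind hs.1) (hs.2.1 0) hs.2.2.2.2.1 hc hj v₀ hv₀

end Main

end Pool.Agent.TG42A
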