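import Pool.Agent.Lib.TG_h68.PDivA

/-!
# C42, assembly of PROJ, row PDIV: a valuation ring whose residue field contains `n` independent
elements of `k(l_0, .., l_n)` lies over an irreducible polynomial
-/

set_option autoImplicit false

namespace Pool.Agent.TG42A

open MvPolynomial
open Pool.Agent.TG (Ov)

universe u

section Sub

variable {k κ : Type*} [Field k] [Field κ] [Algebra k κ]

/-- `n` independent elements algebraic over `k[y]` give `n` independent elements among the `y`. -/
theorem exists_indep_sub {m n : ℕ} (y : Fin m → κ) (w : Fin n → κ)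
    (hw : AlgebraicIndependent k w)
    (hwy : ∀ i, IsAlgebraic (Algebra.adjoin k (Set.range y)) (w i)) :
    ∃ j : Fin n → Fin m, AlgebraicIndependent k fun i => y (j i) := by
  classical
  obtain ⟨I, hI⟩ := (AlgebraicIndependent.matroid k κ).exists_isBasis (Set.range y)
    (Set.subset_univ _)
  have hwI : (AlgebraicIndependent.matroid k κ).Indep (Set.range w) :=
    AlgebraicIndependent.matroid_indep_iff.2 hw.to_subtype_range
  have hsub : Set.range w ⊆ (AlgebraicIndependent.matroid k κ).closure (Set.range y) := by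
    rw [AlgebraicIndependent.matroid_closure_eq]
    rintro _ ⟨i, rfl⟩
    exact hwy i
  have h1 : (Set.range w).encard ≤ I.encard := by
    rw [hI.encard_eq_eRk, ← Matroid.eRk_closure_eq]
    exact hwI.encard_le_eRk_of_subset hsub
  have h2 : (n : ℕ∞) ≤ (Set.range w).encard := by
    simpa using hw.injective.encard_range
  have hfin : I.Finite := (Set.finite_range y).subset hI.subset
  replace h1 := h2.trans h1
  rw [← hfin.cast_ncard_eq, Nat.cast_le] at h1
  have := hfin.fintype
  obtain ⟨e⟩ : Nonempty (Fin n ↪ I) := by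
    apply Function.Embedding.nonempty_of_card_le
    rw [Fintype.card_fin, ← Nat.card_eq_fintype_card]
    exact h1
  choose j hj using fun i : Fin n => hI.subset (e i).2
  refine ⟨j, ?_⟩
  have h3 := (AlgebraicIndependent.matroid_indep_iff.1 hI.indep).comp e e.injective
  have h4 : (fun i => y (j i)) = (fun x : I => id (x : κ)) ∘ e := by
    funext i
    exact hj i
  rw [h4]
  exact h3

end Sub

section General

variable {k K : Type u} [Field k] [Field K] [Algebra k K] {n : ℕ}

/-- The transcendence degree of `k[X_0, .., X_n] / (q)` is at most `n`. -/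
theorem trdeg_quot_le {q : MvPolynomial (Fin (n + 1)) k} (hq : Prime q) :
    Algebra.trdeg k (MvPolynomial (Fin (n + 1)) k ⧸ Ideal.span {q}) ≤ n := by
  have hprime : (Ideal.span {q}).IsPrime := (Ideal.span_singleton_prime hq.ne_zero).2 hq
  by_contra hcon
  rw [not_le, ← Order.succ_le_iff, Cardinal.succ_natCast] at hcon
  let y : Fin (n + 1) → MvPolynomial (Fin (n + 1)) k ⧸ Ideal.span {q} := fun i =>
    Ideal.Quotient.mk _ (X i)
  have htop : Algebra.adjoin k (Set.range y) = ⊤ := by
    rw [Algebra.adjoin_range_eq_range_aeval, eq_top_iff]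
    rintro b -
    obtain ⟨G, rfl⟩ := Ideal.Quotient.mk_surjective b
    refine ⟨G, ?_⟩
    have h : (aeval y : MvPolynomial (Fin (n + 1)) k →ₐ[k] _) =
        Ideal.Quotient.mkₐ k (Ideal.span {q}) := by
      apply MvPolynomial.algHom_ext
      intro i
      rw [aeval_X]
      rfl
    change aeval y G = _
    rw [h]
    rfl
  have halg : Algebra.IsAlgebraic (Algebra.adjoin k (Set.range y))
      (MvPolynomial (Fin (n + 1)) k ⧸ Ideal.span {q}) := by
    refine ⟨fun b => ?_⟩
    have hb : b ∈ Algebra.adjoin k (Set.range y) := by rw [htop]; trivial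
    exact isAlgebraic_algebraMap (⟨b, hb⟩ : Algebra.adjoin k (Set.range y))
  have hinj : Function.Injective
      (algebraMap k (MvPolynomial (Fin (n + 1)) k ⧸ Ideal.span {q})) :=
    (algebraMap k (MvPolynomial (Fin (n + 1)) k ⧸ Ideal.span {q})).injective
  have : FaithfulSMul k (MvPolynomial (Fin (n + 1)) k ⧸ Ideal.span {q}) :=
    (faithfulSMul_iff_algebraMap_injective _ _).2 hinj
  have hy := (Algebra.IsAlgebraic.isTranscendenceBasis_of_lift_le_trdeg_of_finite k y (by
    simpa using hcon)).1
  have h1 : aeval y q = 0 := by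
    have h : (aeval y : MvPolynomial (Fin (n + 1)) k →ₐ[k] _) =
        Ideal.Quotient.mkₐ k (Ideal.span {q}) := by
      apply MvPolynomial.algHom_ext
      intro i
      rw [aeval_X]
      rfl
    rw [h]
    exact Ideal.Quotient.eq_zero_iff_mem.2 (Ideal.mem_span_singleton_self q)
  exact hq.ne_zero (hy (h1.trans (map_zero _).symm))

/-- A prime ideal of height one. -/
theorem principal_of_indep {κ : Type u} [Field κ] [Algebra k κ]
    (ψ : MvPolynomial (Fin (n + 1)) k →ₐ[k] κ) {w : Fin n → κ} (hw : AlgebraicIndependent k w)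
    (hwf : ∀ i, ∃ f g : MvPolynomial (Fin (n + 1)) k, ψ g ≠ 0 ∧ w i = ψ f / ψ g)
    (hne : ∃ G : MvPolynomial (Fin (n + 1)) k, G ≠ 0 ∧ ψ G = 0) :
    ∃ q : MvPolynomial (Fin (n + 1)) k, Irreducible q ∧ ∀ G, ψ G = 0 ↔ q ∣ G := by
  classical
  -- an irreducible element of the kernel
  obtain ⟨q, hq, hqψ⟩ : ∃ q : MvPolynomial (Fin (n + 1)) k, Prime q ∧ ψ q = 0 := by
    obtain ⟨G, hG0, hG⟩ := hne
    obtain ⟨s, hs, u, hu⟩ := UniqueFactorizationMonoid.exists_prime_factors G hG0
    have h1 : ψ s.prod = 0 := by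
      have h2 := congrArg ψ hu
      rw [map_mul, hG] at h2
      refine (mul_eq_zero.1 h2).resolve_right fun h3 => ?_
      have h4 := u.isUnit.map ψ
      rw [h3] at h4
      exact not_isUnit_zero h4
    rw [map_multiset_prod, Multiset.prod_eq_zero_iff, Multiset.mem_map] at h1
    obtain ⟨q, hq, hq0⟩ := h1
    exact ⟨q, hs q hq, hq0⟩
  refine ⟨q, hq.irreducible, fun G => ⟨fun hG => ?_, ?_⟩⟩
  swap
  · rintro ⟨r, rfl⟩
    rw [map_mul, hqψ, zero_mul]
  by_contra hqG
  have hprime : (Ideal.span {q}).IsPrime := (Ideal.span_singleton_prime hq.ne_zero).2 hq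
  -- independent images of variables
  have hwy : ∀ i, IsAlgebraic (Algebra.adjoin k (Set.range fun j => ψ (X j))) (w i) := by
    intro i
    obtain ⟨f, g, hg, hwi⟩ := hwf i
    have hmem : ∀ f, ψ f ∈ Algebra.adjoin k (Set.range fun j => ψ (X j)) := by
      intro f
      rw [Algebra.adjoin_range_eq_range_aeval]
      refine ⟨f, ?_⟩
      have h : (aeval (fun j => ψ (X j)) : MvPolynomial (Fin (n + 1)) k →ₐ[k] _) = ψ := by
        apply MvPolynomial.algHom_ext
        intro i
        rw [aeval_X]
      change aeval (fun j => ψ (X j)) f = _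
      rw [h]
    rw [hwi, div_eq_mul_inv]
    refine IsAlgebraic.mul ?_ (IsAlgebraic.inv ?_)
    · exact isAlgebraic_algebraMap (⟨_, hmem f⟩ : Algebra.adjoin k (Set.range fun j => ψ (X j)))
    · exact isAlgebraic_algebraMap (⟨_, hmem g⟩ : Algebra.adjoin k (Set.range fun j => ψ (X j)))
  obtain ⟨j, hj⟩ := exists_indep_sub (fun j => ψ (X j)) w hw hwy
  -- the quotient
  let Ψ : (MvPolynomial (Fin (n + 1)) k ⧸ Ideal.span {q}) →ₐ[k] κ :=
    Ideal.Quotient.liftₐ (Ideal.span {q}) ψ fun a ha => by
      obtain ⟨r, rfl⟩ := Ideal.mem_span_singleton.1 ha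
      rw [map_mul, hqψ, zero_mul]
  have hΨ : ∀ G, Ψ (Ideal.Quotient.mk _ G) = ψ G := fun G => rfl
  let U : Fin n → MvPolynomial (Fin (n + 1)) k ⧸ Ideal.span {q} := fun i =>
    Ideal.Quotient.mk _ (X (j i))
  have hU : AlgebraicIndependent k U := by
    apply AlgebraicIndependent.of_comp Ψ
    exact hj
  have hinj : Function.Injective
      (algebraMap k (MvPolynomial (Fin (n + 1)) k ⧸ Ideal.span {q})) :=
    (algebraMap k (MvPolynomial (Fin (n + 1)) k ⧸ Ideal.span {q})).injective
  have : FaithfulSMul k (MvPolynomial (Fin (n + 1)) k ⧸ Ideal.span {q}) :=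
    (faithfulSMul_iff_algebraMap_injective _ _).2 hinj
  have hbasis : IsTranscendenceBasis k U := by
    refine hU.isTranscendenceBasis_of_lift_trdeg_le_of_finite ?_
    simpa using trdeg_quot_le hq
  have halg := hbasis.isAlgebraic
  have hGne : (Ideal.Quotient.mk (Ideal.span {q}) G) ≠ 0 := by
    intro h
    exact hqG (Ideal.mem_span_singleton.1 (Ideal.Quotient.eq_zero_iff_mem.1 h))
  obtain ⟨r, hr0, b, hb⟩ := (halg.1 (Ideal.Quotient.mk (Ideal.span {q}) G)).exists_nonzero_dvd
    (mem_nonZeroDivisors_of_ne_zero hGne)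
  obtain ⟨R, hR⟩ : ∃ R : MvPolynomial (Fin n) k, aeval U R =
      (r : MvPolynomial (Fin (n + 1)) k ⧸ Ideal.span {q}) := by
    have h1 : (r : MvPolynomial (Fin (n + 1)) k ⧸ Ideal.span {q}) ∈
        (aeval U : MvPolynomial (Fin n) k →ₐ[k] _).range := by
      rw [← Algebra.adjoin_range_eq_range_aeval]
      exact r.2
    exact h1
  have hR0 : aeval (fun i => ψ (X (j i))) R = 0 := by
    have h1 : Ψ (aeval U R) = 0 := by
      rw [hR]
      change Ψ (algebraMap _ _ r) = 0
      rw [hb, map_mul, hΨ, hG, zero_mul]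
    have h2 : Ψ.comp (aeval U) = aeval fun i => ψ (X (j i)) := by
      apply MvPolynomial.algHom_ext
      intro i
      rw [AlgHom.comp_apply, aeval_X, aeval_X]
      rfl
    rw [← h2]
    exact h1
  have hR1 : R = 0 := hj (hR0.trans (map_zero _).symm)
  rw [hR1, map_zero] at hR
  exact hr0 (Subtype.ext hR.symm)

variable {v : ValuationSubring K}

/-- A valuation ring whose residue field contains `n` independent elements of `k(l)`. -/
theorem exists_overP_of_indep (hv : Ov k v) {l : Fin (n + 1) → K} (hl : ∀ i, l i ∈ v)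
    {w : Fin n → K}
    (hw : ∀ i, ∃ f g : MvPolynomial (Fin (n + 1)) k, v.valuation (aeval l g) = 1 ∧
      w i = aeval l f / aeval l g)
    (hwP : ∀ P : MvPolynomial (Fin n) k, P ≠ 0 → v.valuation (aeval w P) = 1)
    (hne : ∃ G : MvPolynomial (Fin (n + 1)) k, G ≠ 0 ∧ v.valuation (aeval l G) < 1) :
    ∃ q : MvPolynomial (Fin (n + 1)) k, Irreducible q ∧
      ∀ G, v.valuation (aeval l G) < 1 ↔ q ∣ G := by
  classical
  let ι : k →+* v := (algebraMap k K).codRestrict v.toSubring hv
  let _ : Algebra k v := ι.toAlgebra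
  have hres : ∀ a : v, IsLocalRing.residue v a = 0 ↔ v.valuation (a : K) < 1 := fun a => by
    rw [IsLocalRing.residue_eq_zero_iff, ← v.valuation_lt_one_iff]
  let vl : v →ₐ[k] K := { v.subtype with commutes' := fun _ => rfl }
  let ρ : v →ₐ[k] IsLocalRing.ResidueField v :=
    { IsLocalRing.residue v with commutes' := fun _ => rfl }
  let L : Fin (n + 1) → v := fun i => ⟨l i, hl i⟩
  have hL : ∀ G : MvPolynomial (Fin (n + 1)) k, ((aeval L G : v) : K) = aeval l G := by
    intro G
    have h : vl.comp (aeval L) = aeval l := by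
      apply MvPolynomial.algHom_ext
      intro i
      rw [AlgHom.comp_apply, aeval_X, aeval_X]
      rfl
    exact DFunLike.congr_fun h G
  have hwv : ∀ i, w i ∈ v := by
    intro i
    obtain ⟨f, g, hg, hwi⟩ := hw i
    rw [← v.valuation_le_one_iff, hwi, map_div₀, hg, div_one, v.valuation_le_one_iff, ← hL]
    exact Subtype.mem _
  let Wv : Fin n → v := fun i => ⟨w i, hwv i⟩
  have hWv : ∀ P : MvPolynomial (Fin n) k, ((aeval Wv P : v) : K) = aeval w P := by
    intro G
    have h : vl.comp (aeval Wv) = aeval w := by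
      apply MvPolynomial.algHom_ext
      intro i
      rw [AlgHom.comp_apply, aeval_X, aeval_X]
      rfl
    exact DFunLike.congr_fun h G
  have hψ : ∀ G : MvPolynomial (Fin (n + 1)) k,
      (ρ.comp (aeval L)) G = 0 ↔ v.valuation (aeval l G) < 1 := by
    intro G
    rw [AlgHom.comp_apply, ← hL]
    exact hres _
  have hwind : AlgebraicIndependent k fun i => ρ (Wv i) := by
    rw [AlgebraicIndependent, injective_iff_map_eq_zero]
    intro P hP
    by_contra hP0
    have h1 := hwP P hP0
    have h2 : (aeval (fun i => ρ (Wv i)) : MvPolynomial (Fin n) k →ₐ[k] _) =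
        ρ.comp (aeval Wv) := by
      apply MvPolynomial.algHom_ext
      intro i
      rw [AlgHom.comp_apply, aeval_X, aeval_X]
    rw [h2, AlgHom.comp_apply] at hP
    have h3 := (hres _).1 hP
    rw [hWv, h1] at h3
    exact lt_irrefl _ h3
  obtain ⟨q, hq, hqG⟩ := principal_of_indep (ρ.comp (aeval L)) hwind (fun i => by
    obtain ⟨f, g, hg, hwi⟩ := hw i
    refine ⟨f, g, ?_, ?_⟩
    · intro h
      have := (hψ g).1 h
      rw [hg] at this
      exact lt_irrefl _ this
    · have hg0 : (ρ.comp (aeval L)) g ≠ 0 := by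
        intro h
        have := (hψ g).1 h
        rw [hg] at this
        exact lt_irrefl _ this
      rw [eq_div_iff hg0, AlgHom.comp_apply, AlgHom.comp_apply, ← map_mul]
      congr 1
      apply Subtype.ext
      change w i * ((aeval L g : v) : K) = ((aeval L f : v) : K)
      rw [hL, hL, hwi]
      refine div_mul_cancel₀ _ fun h => ?_
      rw [h, map_zero] at hg
      exact zero_ne_one hg) (by
    obtain ⟨G, hG0, hG⟩ := hne
    exact ⟨G, hG0, (hψ G).2 hG⟩)
  exact ⟨q, hq, fun G => by rw [← hqG, hψ]⟩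

end General

end Pool.Agent.TG42A
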