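import Pool.Agent.Lib.TG42A.Defs
import Pool.Agent.Lib.TG42A.PDivG
import Pool.Agent.Lib.TG1.BpfCore

/-!
# C42, assembly of PROJ, row PDIV: prime divisors lie over irreducible polynomials in every chart
-/

set_option autoImplicit false

namespace Pool.Agent.TG42A

open MvPolynomial
open Pool.Agent.TG (Ov ZDim IsMin LB KB PB PP spn PDiv RV LDeg)
open Pool.Agent.TGh33 (Wr)
open Pool.Agent.TG1 (OverP Dat)

universe u

section Null

variable {k : Type u} [Field k] {m : ℕ}

/-- Nullstellensatz: polynomials without a common zero generate the unit ideal. -/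
theorem span_eq_top_of_no_zero [IsAlgClosed k] {ι : Type*} (p : ι → MvPolynomial (Fin m) k)
    (h : ∀ η : Fin m → k, ∃ j, eval η (p j) ≠ 0) : Ideal.span (Set.range p) = ⊤ := by
  by_contra hne
  obtain ⟨M, hM, hle⟩ := Ideal.exists_le_maximal _ hne
  obtain ⟨η, hη⟩ := MvPolynomial.isMaximal_iff_eq_vanishingIdeal_singleton.1 hM
  obtain ⟨j, hj⟩ := h η
  apply hj
  have h1 : p j ∈ M := hle (Ideal.subset_span ⟨j, rfl⟩)
  rw [hη] at h1
  have h2 : aeval η (p j) = 0 := h1 η rfl
  exact h2

end Null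

variable {k K : Type u} [Field k] [Field K] [Algebra k K] {n : ℕ}
  {D : Fin (n + 1) → Derivation k K K} {z : Fin (n + 1) → K} {A : Subalgebra k K} {C T δ : ℕ}
  {X : Fin (n + 2) → K} {F : Fin (n + 2) → MvPolynomial (Fin (n + 1)) k}
  {g : Fin (n + 2) → MvPolynomial (Fin (n + 2)) k}

theorem val_le_of_mem {v : ValuationSubring K} (hv : Ov k v) {m : ℕ} {l : Fin m → K}
    (hl : ∀ i, l i ∈ v) (G : MvPolynomial (Fin m) k) : v.valuation (aeval l G) ≤ 1 :=
  (v.valuation_le_one_iff _).2 (TGh68.aeval_mem hv hl G)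

/-- Polynomials without a common zero are not all small. -/
theorem exists_unit_of_no_zero [IsAlgClosed k] {v : ValuationSubring K} (hv : Ov k v) {m : ℕ}
    {l : Fin m → K} (hl : ∀ i, l i ∈ v) {ι : Type*} (p : ι → MvPolynomial (Fin m) k)
    (h : ∀ η : Fin m → k, ∃ j, eval η (p j) ≠ 0) : ∃ j, v.valuation (aeval l (p j)) = 1 := by
  by_contra hcon
  push Not at hcon
  have hlt : ∀ j, v.valuation (aeval l (p j)) < 1 := fun j =>
    lt_of_le_of_ne (val_le_of_mem hv hl _) (hcon j)
  let I : Ideal (MvPolynomial (Fin m) k) :=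
    { carrier := {G | v.valuation (aeval l G) < 1}
      add_mem' := fun {a b} ha hb => by
        change v.valuation (aeval l (a + b)) < 1
        rw [map_add]
        exact v.valuation.map_add_lt ha hb
      zero_mem' := by
        change v.valuation (aeval l 0) < 1
        rw [map_zero, map_zero]
        exact zero_lt_one
      smul_mem' := fun c a ha => by
        change v.valuation (aeval l (c * a)) < 1
        rw [map_mul, map_mul]
        exact (mul_le_of_le_one_left zero_le (val_le_of_mem hv hl c)).trans_lt ha }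
  have h1 : Ideal.span (Set.range p) ≤ I := by
    rw [Ideal.span_le]
    rintro _ ⟨j, rfl⟩
    exact hlt j
  rw [span_eq_top_of_no_zero p h] at h1
  have h2 : v.valuation (aeval l (1 : MvPolynomial (Fin m) k)) < 1 := h1 (Submodule.mem_top)
  rw [map_one, map_one] at h2
  exact lt_irrefl _ h2

theorem X_ne_zero_of_wr (hW : Wr D X ≠ 0) (i : Fin (n + 2)) : X i ≠ 0 := by
  intro h0
  apply hW
  rw [TGh33.Wr_def]
  apply Matrix.det_eq_zero_of_row_eq_zero i
  intro j
  rw [Matrix.of_apply, h0, map_zero, Pi.zero_apply]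

/-- The Wronskian with the coordinate `i` in front. -/
theorem wr_cons_ne (hW : Wr D X ≠ 0) (i : Fin (n + 2)) :
    Wr D (Fin.cons (X i) fun j => X (i.succAbove j) : Fin (n + 2) → K) ≠ 0 := by
  have h1 : (Fin.cons (X i) fun j => X (i.succAbove j) : Fin (n + 2) → K) =
      X ∘ i.cycleRange.symm := by
    funext j
    refine Fin.cases ?_ (fun j => ?_) j
    · rw [Fin.cons_zero, Function.comp_apply, Fin.cycleRange_symm_zero]
    · rw [Fin.cons_succ, Function.comp_apply, Fin.cycleRange_symm_succ]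
  rw [h1, TGh33.Wr_comp_perm]
  refine mul_ne_zero ?_ hW
  rcases Int.units_eq_one_or (Equiv.Perm.sign i.cycleRange.symm) with h | h
  · rw [h]; simp
  · rw [h]; simp

theorem cr_ind (dat : Dat D z A) (hW : Wr D X ≠ 0) (i : Fin (n + 2)) :
    AlgebraicIndependent k (cr X i) :=
  TG1h38.algInd_crd dat (wr_cons_ne hW i)

/-- Row PDIV over `aeval_gi` and `proj_sep`. -/
theorem pdiv_overP_of [IsAlgClosed k] (_dat : Dat D z A) (hW : Wr D X ≠ 0)
    (hne : ∀ i (η : Fin (n + 1) → k), ∃ j, eval η (gi g i j) ≠ 0)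
    (hgi : ∀ i j : Fin (n + 2), aeval X (g j) = X i ^ δ * aeval (cr X i) (gi g i j))
    (hind : AlgebraicIndependent k (bb X g)) (htr : Transcendental (LB k (bb X g)) (zz X g))
    {v : ValuationSubring K} (hv : PDiv k (bb X g) (zz X g) v) (i : Fin (n + 2))
    (hi : ∀ j, X j / X i ∈ v) :
    v.valuation (aeval (cr X i) (gi g i 0)) = 1 ∧
      ∃ q : MvPolynomial (Fin (n + 1)) k, OverP (cr X i) v q := by
  classical
  have hX := X_ne_zero_of_wr hW
  have hl : ∀ j, cr X i j ∈ v := fun j => hi (i.succAbove j)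
  have hXi : X i ^ δ ≠ 0 := pow_ne_zero _ (hX i)
  -- the ratios
  have hrat : ∀ j, aeval X (g j) / aeval X (g 0) =
      aeval (cr X i) (gi g i j) / aeval (cr X i) (gi g i 0) := fun j => by
    rw [hgi i j, hgi i 0, mul_div_mul_left _ _ hXi]
  have hb : ∀ a : Fin n, bb X g a =
      aeval (cr X i) (gi g i a.castSucc.succ) / aeval (cr X i) (gi g i 0) := fun a => hrat _
  have hz : zz X g =
      aeval (cr X i) (gi g i (Fin.last (n + 1))) / aeval (cr X i) (gi g i 0) := hrat _
  have h00 : aeval (cr X i) (gi g i 0) ≠ 0 := by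
    intro h0
    apply htr
    rw [hz, h0, div_zero]
    exact isAlgebraic_zero
  have hall : ∀ j, aeval (cr X i) (gi g i j) / aeval (cr X i) (gi g i 0) ∈ v := by
    intro j
    refine Fin.cases ?_ (fun j => ?_) j
    · rw [div_self h00]; exact one_mem v
    · refine Fin.lastCases ?_ (fun j => ?_) j
      · have := hv.z_mem
        rw [hz] at this
        exact this
      · rw [← hb]
        exact hv.b_mem j
  have h1 : v.valuation (aeval (cr X i) (gi g i 0)) = 1 := by
    obtain ⟨j, hj⟩ := exists_unit_of_no_zero hv.ov hl (gi g i) (hne i)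
    refine le_antisymm (val_le_of_mem hv.ov hl _) ?_
    have h2 := (v.valuation_le_one_iff _).2 (hall j)
    rw [map_div₀, hj] at h2
    have h3 : v.valuation (aeval (cr X i) (gi g i 0)) ≠ 0 := by
      rwa [Ne, Valuation.zero_iff]
    rwa [one_div, inv_le_one₀ (zero_lt_iff.2 h3)] at h2
  refine ⟨h1, ?_⟩
  obtain ⟨w, hw, hwP⟩ := TGh68.pdiv_exists_ind hind htr hv
  -- the centre is not zero
  have hcen : ∃ G : MvPolynomial (Fin (n + 1)) k, G ≠ 0 ∧
      v.valuation (aeval (cr X i) G) < 1 := by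
    obtain ⟨x, hx, hxv⟩ := hv.ne
    have hKB : KB k (bb X g) (zz X g) ≤
        IntermediateField.adjoin k (Set.range (cr X i)) := by
      have hmem : ∀ G : MvPolynomial (Fin (n + 1)) k, aeval (cr X i) G ∈
          IntermediateField.adjoin k (Set.range (cr X i)) := fun G =>
        (IntermediateField.mem_adjoin_range_iff k _ _).2 ⟨G, 1, by rw [map_one, div_one]⟩
      refine IntermediateField.adjoin_le_iff.2 ?_
      rintro y (rfl | ⟨a, rfl⟩)
      · rw [hz]
        exact div_mem (hmem _) (hmem _)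
      · rw [hb]
        exact div_mem (hmem _) (hmem _)
    obtain ⟨r, s, hrs⟩ := (IntermediateField.mem_adjoin_range_iff k _ _).1 (hKB hx)
    have hx0 : x ≠ 0 := by rintro rfl; exact hxv (zero_mem v)
    have hs0 : aeval (cr X i) s ≠ 0 := by
      intro h
      rw [h, div_zero] at hrs
      exact hx0 hrs
    refine ⟨s, by rintro rfl; exact hs0 (map_zero _), ?_⟩
    have h2 : aeval (cr X i) s = aeval (cr X i) r * x⁻¹ := by
      have h3 : x * aeval (cr X i) s = aeval (cr X i) r := by
        rw [hrs, div_mul_cancel₀ _ hs0]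
      rw [← h3, mul_comm x, mul_assoc, mul_inv_cancel₀ hx0, mul_one]
    have h3 : v.valuation x⁻¹ < 1 := by
      have h4 : 1 < v.valuation x := by
        rw [← not_le, v.valuation_le_one_iff]
        exact hxv
      rw [map_inv₀]
      exact inv_lt_one_of_one_lt₀ h4
    rw [h2, map_mul]
    exact (mul_le_of_le_one_left zero_le (val_le_of_mem hv.ov hl r)).trans_lt h3
  obtain ⟨q, hq, hqG⟩ := exists_overP_of_indep hv.ov hl (fun a => by
    rcases hw a with h | ⟨j, h⟩
    · exact ⟨gi g i (Fin.last (n + 1)), gi g i 0, h1, h.trans hz⟩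
    · exact ⟨gi g i j.castSucc.succ, gi g i 0, h1, h.symm.trans (hb j)⟩) hwP hcen
  exact ⟨q, hl, hq, hqG⟩

end Pool.Agent.TG42A
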