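import Pool.Agent.Lib.TG42A.PDiv0
import Pool.Agent.Lib.TG9_h80.R6
import Pool.Agent.Lib.TG1.FFI

/-!
# C42, assembly of PROJ, row SEP over `wr_aeval` (helper45)
-/

set_option autoImplicit false

namespace Pool.Agent.TG42A

open MvPolynomial
open Pool.Agent.TG (Ov ZDim IsMin LB KB PB PP spn PDiv RV LDeg)
open Pool.Agent.TGh33 (Wr)
open Pool.Agent.TG1 (OverP Dat)
open Pool.Agent.TG42 (wr)

universe u

variable {k K : Type u} [Field k] [Field K] [Algebra k K] {n : ℕ}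
  {D : Fin (n + 1) → Derivation k K K} {z : Fin (n + 1) → K} {A : Subalgebra k K} {C T δ : ℕ}
  {X : Fin (n + 2) → K} {F : Fin (n + 2) → MvPolynomial (Fin (n + 1)) k}
  {g : Fin (n + 2) → MvPolynomial (Fin (n + 2)) k}

/-- The Wronskian of `g(X)` is not `0`; `hwr` is the conclusion of `wr_aeval`. -/
theorem wr_g_ne (dat : Dat D z A) (hW : Wr D X ≠ 0) (hg : ∀ i, wr (gi g i) ≠ 0)
    (hwr : ∀ i : Fin (n + 2), ∃ ε : K, (ε = 1 ∨ ε = -1) ∧ Wr D (fun j => aeval X (g j)) =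
      ε * (X i ^ (δ * (n + 2)) * aeval (cr X i) (wr (gi g i)) * (Wr D X / X i ^ (n + 2)))) :
    Wr D (fun j => aeval X (g j)) ≠ 0 := by
  obtain ⟨ε, hε, h⟩ := hwr 0
  have hX := X_ne_zero_of_wr hW 0
  have h1 : aeval (cr X 0) (wr (gi g 0)) ≠ 0 := fun h0 =>
    hg 0 ((injective_iff_map_eq_zero _).1 (cr_ind dat hW 0) _ h0)
  have h2 : ε ≠ 0 := by
    rcases hε with rfl | rfl
    · exact one_ne_zero
    · exact neg_ne_zero.2 one_ne_zero
  rw [h]
  exact mul_ne_zero h2 (mul_ne_zero (mul_ne_zero (pow_ne_zero _ hX) h1)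
    (div_ne_zero hW (pow_ne_zero _ hX)))

/-- Row SEP over `Wr D (g(X)) ≠ 0`. -/
theorem proj_sep_of_wr (dat : Dat D z A) (hW : Wr D X ≠ 0)
    (hG : Wr D (fun j => aeval X (g j)) ≠ 0) :
    AlgebraicIndependent k (cr X 0) ∧ (∀ j, aeval X (g j) ≠ 0) ∧
    AlgebraicIndependent k (bb X g) ∧ Transcendental (LB k (bb X g)) (zz X g) ∧
    FiniteDimensional (KB k (bb X g) (zz X g)) K ∧
    Algebra.IsSeparable (KB k (bb X g) (zz X g)) K := by
  have h0 := X_ne_zero_of_wr hG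
  have hcons : Wr D (Fin.cons (aeval X (g 0)) fun j : Fin (n + 1) => aeval X (g j.succ) :
      Fin (n + 2) → K) ≠ 0 := by
    have h1 : (Fin.cons (aeval X (g 0)) fun j : Fin (n + 1) => aeval X (g j.succ) :
        Fin (n + 2) → K) = fun j => aeval X (g j) := by
      funext j
      refine Fin.cases ?_ (fun j => ?_) j
      · rfl
      · rfl
    rw [h1]
    exact hG
  have hind : AlgebraicIndependent k
      (fun i : Fin (n + 1) => aeval X (g i.succ) / aeval X (g 0)) := by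
    have h1 := TG1h38.algInd_crd dat hcons
    exact h1
  obtain ⟨hr, hb, htr⟩ := TG9h80.r6_aux (fun j => aeval X (g j)) hind (bb X g)
    (fun i => rfl) (zz X g) rfl
  have hKB : KB k (bb X g) (zz X g) =
      TG1.kq k (aeval X (g 0)) fun j : Fin (n + 1) => aeval X (g j.succ) := by
    rw [KB, TG1.kq, ← hr]
  refine ⟨cr_ind dat hW 0, h0, hb, htr, ?_, ?_⟩
  · rw [hKB]
    exact TG1.kq_fin dat hcons
  · rw [hKB]
    exact TG1.kq_sep dat hcons

end Pool.Agent.TG42A
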